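import Pool.Agent.Y335.FL.Main
import Pool.Agent.Y335.FL.Surf
import Pool.Agent.Y335.FL.Edge62
import Pool.Agent.Y358.IN.Base
import Pool.Agent.TH676.Z.AphMC
import Pool.Agent.TH676.Z.FacesG

/-!
# Deletion of balls

Classes of graphs defined by a property of the graph outside a union of balls.
-/

set_option autoImplicit false
set_option linter.unusedSectionVars false

namespace Pool.Agent.Q287.FL.Around

open Finset Pool.Agent.TH676.Z Pool.Agent.Y335.FL Pool.Agent.Y358.IN Edge62

section
variable {V E : Type} [Fintype V] [DecidableEq V] [Fintype E] [DecidableEq E]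

/-- a property of edge sets which is kept by deletions and by contractions -/
structure Minor (P : (E → V) → (E → V) → Finset E → Prop) : Prop where
  sub : ∀ (src dst : E → V) (F F' : Finset E), P src dst F → F' ⊆ F → P src dst F'
  congr : ∀ (src dst src' dst' : E → V) (F : Finset E),
    (∀ e ∈ F, src' e = src e ∧ dst' e = dst e) → P src dst F → P src' dst' F
  con : ∀ (src dst : E → V) (F : Finset E) (e : E), P src dst F → e ∈ F → src e ≠ dst e →
    (∀ d ∈ F, d ≠ e → ¬ Jn src dst d (src e) (dst e)) →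
    P (ctr (src e) (dst e) ∘ src) (ctr (src e) (dst e) ∘ dst) (F.erase e)

theorem minor_mac (h : ℕ) : Minor (V := V) (E := E) (fun src dst F => Mac h src dst F) where
  sub := fun src dst F F' hM hs => ApMCx.sub_mac macDel src dst F F' h hM hs
  congr := fun src dst src' dst' F hc hM => ApMCx.mac_congr src dst src' dst' F h hc hM
  con := fun src dst F e hM he hne hd => macCon V E src dst F h e hM he hne hd

theorem minor_cyc (N : ℕ) : Minor (V := V) (E := E)
    (fun src dst F => Module.finrank (ZMod 2) (ZF src dst F) ≤ N) where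
  sub := fun src dst F F' hM hs => (Cycx.fr_mono hs).trans hM
  congr := fun src dst src' dst' F hc hM => by
    show Module.finrank (ZMod 2) (ZF src' dst' F) ≤ N
    rw [ApMCx.zf_congr src dst src' dst' F hc]
    exact hM
  con := fun src dst F e hM he hne _ => (Cycx.fr_con he hne).trans hM

/-- contraction of an edge when a set of vertices is deleted -/
theorem Minor.img {P : (E → V) → (E → V) → Finset E → Prop} (hP : Minor P) (src dst : E → V)
    (e : E) (hne : src e ≠ dst e) (S : Finset V) (hM : P src dst (ES src dst S)) :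
    P (ctr (src e) (dst e) ∘ src) (ctr (src e) (dst e) ∘ dst)
      (ES (ctr (src e) (dst e) ∘ src) (ctr (src e) (dst e) ∘ dst)
        (S.image (ctr (src e) (dst e)))) := by
  classical
  have hcu : ctr (src e) (dst e) (src e) = src e := by simp [ctr]
  have hcv : ctr (src e) (dst e) (dst e) = src e := by simp [ctr]
  by_cases hs : src e ∈ S ∨ dst e ∈ S
  · have hu : src e ∈ S.image (ctr (src e) (dst e)) := by
      rcases hs with hs | hs
      · exact mem_image.2 ⟨_, hs, hcu⟩
      · exact mem_image.2 ⟨_, hs, hcv⟩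
    have hmem : ∀ d ∈ ES (ctr (src e) (dst e) ∘ src) (ctr (src e) (dst e) ∘ dst)
        (S.image (ctr (src e) (dst e))),
        d ∈ ES src dst S ∧ (ctr (src e) (dst e) ∘ src) d = src d ∧
          (ctr (src e) (dst e) ∘ dst) d = dst d := by
      intro d hd
      simp only [ES, mem_filter, mem_univ, true_and, Function.comp] at hd ⊢
      obtain ⟨ha, hb, hc⟩ := hd
      obtain ⟨b1, b2, b3⟩ := ApMCx.ctr_ne (src e) (dst e) (src d) (fun h => hb (by rw [h]; exact hu))
      obtain ⟨c1, c2, c3⟩ := ApMCx.ctr_ne (src e) (dst e) (dst d) (fun h => hc (by rw [h]; exact hu))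
      rw [b3, c3] at ha
      refine ⟨⟨ha, fun h => hb (mem_image_of_mem _ h), fun h => hc (mem_image_of_mem _ h)⟩, b3, c3⟩
    exact hP.congr _ _ _ _ _ (fun d hd => (hmem d hd).2)
      (hP.sub _ _ _ _ hM (fun d hd => (hmem d hd).1))
  · push Not at hs
    obtain ⟨hs1, hs2⟩ := hs
    have himg : S.image (ctr (src e) (dst e)) = S := by
      have : ∀ x ∈ S, ctr (src e) (dst e) x = x := by
        intro x hx
        have hxv : x ≠ dst e := fun h => hs2 (h ▸ hx)
        unfold ctr
        rw [if_neg hxv]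
      rw [image_congr (g := id) (fun x hx => this x hx), image_id]
    rw [himg]
    set F1 : Finset E := (ES src dst S).filter
      (fun d => d = e ∨ ¬ Jn src dst d (src e) (dst e)) with hF1
    have hM1 : P src dst F1 := hP.sub _ _ _ _ hM (filter_subset _ _)
    have he : e ∈ F1 := by
      simp only [hF1, ES, mem_filter, mem_univ, true_and, true_or, and_true]
      exact ⟨hne, hs1, hs2⟩
    have hM2 := hP.con src dst F1 e hM1 he hne (by
      intro d hd hde
      rw [hF1, mem_filter] at hd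
      rcases hd.2 with h' | h'
      · exact absurd h' hde
      · exact h')
    refine hP.sub _ _ _ _ hM2 ?_
    intro d hd
    simp only [ES, mem_filter, mem_univ, true_and, Function.comp] at hd
    obtain ⟨ha, hb, hc⟩ := hd
    have hde : d ≠ e := by
      rintro rfl
      rw [hcu, hcv] at ha
      exact ha rfl
    rw [mem_erase, hF1, mem_filter]
    refine ⟨hde, ?_, Or.inr ?_⟩
    · simp only [ES, mem_filter, mem_univ, true_and]
      exact ⟨fun h => ha (by rw [h]), ApsMCx.ctr_not S _ _ _ hs2 hb, ApsMCx.ctr_not S _ _ _ hs2 hc⟩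
    · rintro (⟨h3, h4⟩ | ⟨h3, h4⟩)
      · rw [h3, h4, hcu, hcv] at ha
        exact ha rfl
      · rw [h3, h4, hcu, hcv] at ha
        exact ha rfl

/-- the image of a ball under a map -/
theorem Bl_map {src dst : E → V} (f : V → V) (s : V) : ∀ (m : ℕ) (x : V), x ∈ Bl src dst s m →
    f x ∈ Bl (f ∘ src) (f ∘ dst) (f s) m := by
  intro m
  induction m with
  | zero =>
    intro x hx
    have : x = s := mem_singleton.1 hx
    subst this
    exact mem_singleton_self _
  | succ m ih =>
    intro x hx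
    rw [mem_Bl_succ] at hx ⊢
    rcases hx with h | ⟨y, hy, hyx⟩
    · exact Or.inl (ih x h)
    · by_cases hxy : f y = f x
      · rw [← hxy]
        exact Or.inl (ih y hy)
      · refine Or.inr ⟨f y, ih y hy, hxy, ?_⟩
        obtain ⟨_, e, he⟩ := hyx
        refine ⟨e, ?_⟩
        rcases he with ⟨h1, h2⟩ | ⟨h1, h2⟩
        · exact Or.inl ⟨congrArg f h1, congrArg f h2⟩
        · exact Or.inr ⟨congrArg f h1, congrArg f h2⟩

/-- the property `P` holds after the deletion of a set of vertices contained in the balls with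
radii `s i` around `k` vertices -/
def Cl (P : (E → V) → (E → V) → Finset E → Prop) {k : ℕ} (s : Fin k → ℕ) (src dst : E → V) :
    Prop :=
  ∃ (c : Fin k → V) (S : Finset V), (∀ v ∈ S, ∃ i, v ∈ Bl src dst (c i) (s i)) ∧
    P src dst (ES src dst S)

theorem ccCl {P : (E → V) → (E → V) → Finset E → Prop} (hP : Minor P) {k : ℕ} (s : Fin k → ℕ) :
    CC (Cl P s) := by
  classical
  rintro src dst e ⟨c, S, hS, hM⟩ hne
  refine ⟨fun i => ctr (src e) (dst e) (c i), S.image (ctr (src e) (dst e)), ?_,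
    hP.img src dst e hne S hM⟩
  intro v hv
  obtain ⟨x, hx, rfl⟩ := mem_image.1 hv
  obtain ⟨i, hi⟩ := hS x hx
  exact ⟨i, Bl_map _ _ _ _ hi⟩

end

section
variable {V E : Type} [Fintype V] [DecidableEq V] [Fintype E] [DecidableEq E] {src dst : E → V}

/-- the assumptions on a minimal counterexample -/
structure Gd (src dst : E → V) : Prop where
  g : Girth (Adj src dst) 12
  p : NoPar src dst
  t : Three (Adj src dst)

theorem mem_crs {Y : Finset V} {e : E} : e ∈ crs src dst Y ↔ ¬ (src e ∈ Y ↔ dst e ∈ Y) := by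
  unfold crs
  rw [mem_filter]
  simp

/-- an edge leaving a set: the inner and the outer end -/
theorem crs_ends {Y : Finset V} {e : E} (h : e ∈ crs src dst Y) :
    ∃ y x, y ∈ Y ∧ x ∉ Y ∧ Jn src dst e y x := by
  rw [mem_crs] at h
  by_cases h1 : src e ∈ Y
  · have h2 : dst e ∉ Y := fun h2 => h ⟨fun _ => h2, fun _ => h1⟩
    exact ⟨_, _, h1, h2, Or.inl ⟨rfl, rfl⟩⟩
  · have h2 : dst e ∈ Y := by
      by_contra h2
      exact h ⟨fun h3 => absurd h3 h1, fun h3 => absurd h3 h2⟩
    exact ⟨_, _, h2, h1, Or.inr ⟨rfl, rfl⟩⟩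

theorem jn_crs {Y : Finset V} {e : E} {y x : V} (hy : y ∈ Y) (hx : x ∉ Y) (h : Jn src dst e y x) :
    e ∈ crs src dst Y := by
  rw [mem_crs]
  rcases h with ⟨h1, h2⟩ | ⟨h1, h2⟩
  · rw [h1, h2]
    exact fun h => hx (h.1 hy)
  · rw [h1, h2]
    exact fun h => hx (h.2 hy)

theorem jn_adj {e : E} {y x : V} (hne : y ≠ x) (h : Jn src dst e y x) : Adj src dst y x :=
  ⟨hne, e, h⟩

/-- the edges leaving the ball -/
noncomputable def xe (src dst : E → V) (c : V) (d : ℕ) : ℕ := (crs src dst (Bl src dst c d)).card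

/-- the edges leaving a ball are determined by their outer ends -/
theorem xe_le (h : Gd src dst) (c : V) {d : ℕ} (hd : d ≤ 4) :
    xe src dst c d ≤ (Lv src dst c d).card := by
  classical
  unfold xe
  have hch : ∀ e ∈ crs src dst (Bl src dst c d), ∃ x, x ∈ Lv src dst c d ∧
      ∃ y ∈ Bl src dst c d, Jn src dst e y x := by
    intro e he
    obtain ⟨y, x, hy, hx, hj⟩ := crs_ends he
    have hne : y ≠ x := fun h => hx (h ▸ hy)
    exact ⟨x, mem_Lv.2 ⟨mem_Bl_succ.2 (Or.inr ⟨y, hy, jn_adj hne hj⟩), hx⟩, y, hy, hj⟩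
  haveI : Nonempty V := ⟨c⟩
  choose! f hf using hch
  refine card_le_card_of_injOn f (fun e he => (hf e he).1) ?_
  intro e he e' he' hee
  obtain ⟨h1, y, hy, hj⟩ := hf e he
  obtain ⟨h1', y', hy', hj'⟩ := hf e' he'
  rw [← hee] at hj'
  have hx : f e ∉ Bl src dst c d := (mem_Lv.1 h1).2
  have hne : y ≠ f e := fun h => hx (h ▸ hy)
  have hne' : y' ≠ f e := fun h => hx (h ▸ hy')
  have : y' = y := key even_all h.p h.g hd hx hy (jn_adj hne hj)
    (Bl_mono (Nat.le_succ d) hy') (jn_adj hne' hj')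
  subst this
  exact h.p e e' _ _ hne hj hj'

theorem xe_growth (h : Gd src dst) (c : V) {d : ℕ} (hd : d ≤ 4) :
    2 * xe src dst c d ≤ xe src dst c (d + 1) := by
  classical
  have h1 := xe_le h c hd
  have h2 := Ed_card even_all h.p h.g h.t c hd
  have h3 : (Ed src dst c d).card ≤ xe src dst c (d + 1) := by
    unfold xe
    refine card_le_card fun e he => ?_
    rw [mem_Ed] at he
    rcases he with ⟨h4, h5⟩ | ⟨h4, h5⟩
    · exact jn_crs (mem_Lv.1 h4).1 (mem_Lv.1 h5).2 (Or.inl ⟨rfl, rfl⟩)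
    · exact jn_crs (mem_Lv.1 h4).1 (mem_Lv.1 h5).2 (Or.inr ⟨rfl, rfl⟩)
  omega

/-- the edges which are not loops -/
def NL (src dst : E → V) : Finset E := univ.filter (fun e => src e ≠ dst e)

/-- the edges with an end in `Y` -/
def Tc (src dst : E → V) (Y : Finset V) : Finset E :=
  (NL src dst).filter (fun e => src e ∈ Y ∨ dst e ∈ Y)

theorem mem_NL {e : E} : e ∈ NL src dst ↔ src e ≠ dst e := by
  unfold NL
  rw [mem_filter]
  simp

theorem mem_Tc {Y : Finset V} {e : E} : e ∈ Tc src dst Y ↔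
    src e ≠ dst e ∧ (src e ∈ Y ∨ dst e ∈ Y) := by
  unfold Tc
  rw [mem_filter, mem_NL]

theorem crs_NL {Y : Finset V} {e : E} (h : e ∈ crs src dst Y) : e ∈ NL src dst := by
  rw [mem_NL]
  intro h1
  rw [mem_crs, h1] at h
  exact h Iff.rfl

/-- disjoint spheres -/
theorem crs_disj (c : V) {d d' : ℕ} {e : E} (h : e ∈ crs src dst (Bl src dst c d))
    (h' : e ∈ crs src dst (Bl src dst c d')) (hd : d < d') : False := by
  obtain ⟨y, x, hy, hx, hj⟩ := crs_ends h
  have hne : y ≠ x := fun h => hx (h ▸ hy)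
  have hx' : x ∈ Bl src dst c d' :=
    Bl_mono (show d + 1 ≤ d' by omega) (mem_Bl_succ.2 (Or.inr ⟨y, hy, jn_adj hne hj⟩))
  have hy' : y ∈ Bl src dst c d' := Bl_mono hd.le hy
  rw [mem_crs] at h'
  apply h'
  rcases hj with ⟨h1, h2⟩ | ⟨h1, h2⟩
  · rw [h1, h2]; exact iff_of_true hy' hx'
  · rw [h1, h2]; exact iff_of_true hx' hy'

theorem sum_xe (c : V) (n : ℕ) : ∑ d ∈ range n, xe src dst c d ≤ (NL src dst).card := by
  classical
  unfold xe
  rw [← card_biUnion]
  · refine card_le_card fun e he => ?_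
    obtain ⟨d, _, hd⟩ := mem_biUnion.1 he
    exact crs_NL hd
  · intro d _ d' _ hne
    rw [Function.onFun, Finset.disjoint_left]
    intro e h1 h2
    rcases Nat.lt_or_gt_of_ne hne with h | h
    · exact crs_disj c h1 h2 h
    · exact crs_disj c h2 h1 h

/-- the edges with an end in a ball -/
theorem Tc_Bl (h : Gd src dst) (c : V) {s : ℕ} (hs : s ≤ 4) :
    (Tc src dst (Bl src dst c s)).card ≤ ∑ d ∈ range (s + 1), xe src dst c d := by
  classical
  unfold xe
  refine le_trans (card_le_card ?_) card_biUnion_le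
  intro e he
  rw [mem_Tc] at he
  obtain ⟨hne, he⟩ := he
  have hex : ∃ d, src e ∈ Bl src dst c d ∧ dst e ∈ Bl src dst c d := by
    refine ⟨s + 1, ?_⟩
    rcases he with he | he
    · exact ⟨Bl_mono (Nat.le_succ s) he, mem_Bl_succ.2 (Or.inr ⟨_, he, hne, e, Or.inl ⟨rfl, rfl⟩⟩)⟩
    · exact ⟨mem_Bl_succ.2 (Or.inr ⟨_, he, hne.symm, e, Or.inr ⟨rfl, rfl⟩⟩), Bl_mono (Nat.le_succ s) he⟩
  have hle : Nat.find hex ≤ s + 1 := by
    refine Nat.find_min' hex ?_
    rcases he with he | he
    · exact ⟨Bl_mono (Nat.le_succ s) he, mem_Bl_succ.2 (Or.inr ⟨_, he, hne, e, Or.inl ⟨rfl, rfl⟩⟩)⟩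
    · exact ⟨mem_Bl_succ.2 (Or.inr ⟨_, he, hne.symm, e, Or.inr ⟨rfl, rfl⟩⟩), Bl_mono (Nat.le_succ s) he⟩
  obtain ⟨h1, h2⟩ := Nat.find_spec hex
  have hmin := fun m => Nat.find_min hex (m := m)
  generalize Nat.find hex = k at hle h1 h2 hmin
  rcases k with _ | j
  · have h3 : src e = c := mem_singleton.1 h1
    have h4 : dst e = c := mem_singleton.1 h2
    exact absurd (h3.trans h4.symm) hne
  · refine mem_biUnion.2 ⟨j, mem_range.2 (by omega), ?_⟩
    rw [mem_crs]
    intro hiff
    by_cases h3 : src e ∈ Bl src dst c j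
    · exact hmin j (Nat.lt_succ_self j) ⟨h3, hiff.1 h3⟩
    · have h4 : dst e ∉ Bl src dst c j := fun h4 => h3 (hiff.2 h4)
      obtain ⟨y, hy, hyx⟩ := parent (mem_Lv.2 ⟨h1, h3⟩)
      have := key even_all h.p h.g (show j ≤ 4 by omega) h3 hy hyx h2
        (show Adj src dst (dst e) (src e) from ⟨hne.symm, e, Or.inr ⟨rfl, rfl⟩⟩)
      exact h4 (this ▸ hy)

/-- the numerical inequality for one ball, surfaces -/
theorem ball1 (h : Gd src dst) (c : V) {s : ℕ} (hs : s ≤ 4) :
    63 * (2 * (crs src dst (Bl src dst c s)).card + (Tc src dst (Bl src dst c s)).card) ≤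
      (2 ^ (s + 2) - 1) * (NL src dst).card := by
  have h1 := Tc_Bl h c hs
  have h2 := sum_xe (src := src) (dst := dst) c 6
  have g0 := xe_growth h c (d := 0) (by omega)
  have g1 := xe_growth h c (d := 1) (by omega)
  have g2 := xe_growth h c (d := 2) (by omega)
  have g3 := xe_growth h c (d := 3) (by omega)
  have g4 := xe_growth h c (d := 4) (by omega)
  simp only [zero_add, Nat.reduceAdd] at g0 g1 g2 g3 g4
  have h3 : (crs src dst (Bl src dst c s)).card = xe src dst c s := rfl
  rw [h3]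
  interval_cases s <;> simp only [sum_range_succ, sum_range_zero, zero_add, Nat.reduceAdd,
    Nat.reducePow, Nat.reduceSub] at h1 h2 ⊢ <;> omega

/-- the numerical inequality for one ball, circuits -/
theorem ball2 (h : Gd src dst) (c : V) {s : ℕ} (hs : s ≤ 4) :
    63 * ((crs src dst (Bl src dst c s)).card + (Tc src dst (Bl src dst c s)).card) ≤
      (3 * 2 ^ s - 1) * (NL src dst).card := by
  have h1 := Tc_Bl h c hs
  have h2 := sum_xe (src := src) (dst := dst) c 6
  have g0 := xe_growth h c (d := 0) (by omega)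
  have g1 := xe_growth h c (d := 1) (by omega)
  have g2 := xe_growth h c (d := 2) (by omega)
  have g3 := xe_growth h c (d := 3) (by omega)
  have g4 := xe_growth h c (d := 4) (by omega)
  simp only [zero_add, Nat.reduceAdd] at g0 g1 g2 g3 g4
  have h3 : (crs src dst (Bl src dst c s)).card = xe src dst c s := rfl
  rw [h3]
  interval_cases s <;> simp only [sum_range_succ, sum_range_zero, zero_add, Nat.reduceAdd,
    Nat.reducePow, Nat.reduceSub, Nat.reduceMul] at h1 h2 ⊢ <;> omega

theorem ball3 (h : Gd src dst) (c : V) {s : ℕ} (hs : s ≤ 4) :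
    189 * (Tc src dst (Bl src dst c s)).card ≤
      2 * ((3 * 2 ^ s - 1) * (NL src dst).card) := by
  have h1 := Tc_Bl h c hs
  have h2 := sum_xe (src := src) (dst := dst) c 6
  have g0 := xe_growth h c (d := 0) (by omega)
  have g1 := xe_growth h c (d := 1) (by omega)
  have g2 := xe_growth h c (d := 2) (by omega)
  have g3 := xe_growth h c (d := 3) (by omega)
  have g4 := xe_growth h c (d := 4) (by omega)
  simp only [zero_add, Nat.reduceAdd] at g0 g1 g2 g3 g4
  interval_cases s <;> simp only [sum_range_succ, sum_range_zero, zero_add, Nat.reduceAdd,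
    Nat.reducePow, Nat.reduceSub, Nat.reduceMul] at h1 h2 ⊢ <;> omega

theorem NL_189 (h : Gd src dst) {x y : V} (hxy : Adj src dst x y) : 189 ≤ (NL src dst).card := by
  classical
  have h2 := sum_xe (src := src) (dst := dst) x 6
  have g0 := xe_growth h x (d := 0) (by omega)
  have g1 := xe_growth h x (d := 1) (by omega)
  have g2 := xe_growth h x (d := 2) (by omega)
  have g3 := xe_growth h x (d := 3) (by omega)
  have g4 := xe_growth h x (d := 4) (by omega)
  simp only [zero_add, Nat.reduceAdd] at g0 g1 g2 g3 g4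
  have h3 : 3 ≤ xe src dst x 0 := by
    obtain ⟨a, b, c, ha, hb, hc, hab, hac, hbc⟩ := h.t x y hxy
    obtain ⟨na, ea, ja⟩ := ha
    obtain ⟨nb, eb, jb⟩ := hb
    obtain ⟨nc, ec, jc⟩ := hc
    have hm : ∀ (e : E) (z : V), x ≠ z → Jn src dst e x z →
        e ∈ crs src dst (Bl src dst x 0) := by
      intro e z hz hj
      exact jn_crs (mem_singleton_self x) (fun hzx => hz (mem_singleton.1 hzx).symm) hj
    have hd : ∀ (e e' : E) (z z' : V), z ≠ z' → Jn src dst e x z → Jn src dst e' x z' →
        x ≠ z → x ≠ z' → e ≠ e' := by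
      rintro e e' z z' hzz (⟨h1, h2⟩ | ⟨h1, h2⟩) (⟨h3, h4⟩ | ⟨h3, h4⟩) hz hz' rfl
      · exact hzz (h2.symm.trans h4)
      · exact hz' (h1.symm.trans h3)
      · exact hz (h3.symm.trans h1)
      · exact hzz (h1.symm.trans h3)
    unfold xe
    refine Finset.two_lt_card.2 ⟨ea, hm _ _ na ja, eb, hm _ _ nb jb, ec, hm _ _ nc jc,
      hd _ _ _ _ hab ja jb na nb, hd _ _ _ _ hac ja jc na nc, hd _ _ _ _ hbc jb jc nb nc⟩
  simp only [sum_range_succ, sum_range_zero, zero_add] at h2
  omega

/-- degrees outside of `T` -/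
theorem deg_out (h : Gd src dst) (T : Finset V) :
    3 * (VS src dst T).card ≤ 2 * (ES src dst T).card + (crs src dst T).card := by
  classical
  set I : V → Finset E := fun v => (NL src dst).filter (fun e => src e = v ∨ dst e = v) with hI
  have h3 : ∀ v ∈ VS src dst T, 3 ≤ (I v).card := by
    intro v hv
    unfold VS at hv
    obtain ⟨-, -, y, hy⟩ := mem_filter.1 hv
    obtain ⟨a, b, c, ⟨na, ea, ja⟩, ⟨nb, eb, jb⟩, ⟨nc, ec, jc⟩, hab, hac, hbc⟩ := h.t v y hy
    have hm : ∀ (e : E) (z : V), v ≠ z → Jn src dst e v z → e ∈ I v := by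
      intro e z hz hj
      rw [hI, mem_filter, mem_NL]
      rcases hj with ⟨h1, h2⟩ | ⟨h1, h2⟩
      · exact ⟨by rw [h1, h2]; exact hz, Or.inl h1⟩
      · exact ⟨by rw [h1, h2]; exact hz.symm, Or.inr h2⟩
    have hd : ∀ (e e' : E) (z z' : V), z ≠ z' → Jn src dst e v z → Jn src dst e' v z' →
        v ≠ z → v ≠ z' → e ≠ e' := by
      rintro e e' z z' hzz (⟨h1, h2⟩ | ⟨h1, h2⟩) (⟨h3, h4⟩ | ⟨h3, h4⟩) hz hz' rfl
      · exact hzz (h2.symm.trans h4)
      · exact hz' (h1.symm.trans h3)
      · exact hz (h3.symm.trans h1)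
      · exact hzz (h1.symm.trans h3)
    exact Finset.two_lt_card.2 ⟨ea, hm _ _ na ja, eb, hm _ _ nb jb, ec, hm _ _ nc jc,
      hd _ _ _ _ hab ja jb na nb, hd _ _ _ _ hac ja jc na nc, hd _ _ _ _ hbc jb jc nb nc⟩
  have h4 : 3 * (VS src dst T).card ≤ ∑ v ∈ VS src dst T, (I v).card := by
    rw [mul_comm, ← smul_eq_mul, ← sum_const]
    exact sum_le_sum h3
  refine h4.trans ?_
  have h5 : ∑ v ∈ VS src dst T, (I v).card =
      ∑ e ∈ NL src dst, ((VS src dst T).filter (fun v => src e = v ∨ dst e = v)).card := by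
    simp only [hI, card_filter]
    rw [sum_comm]
  rw [h5]
  have hT : ∀ v ∈ VS src dst T, v ∉ T := by
    intro v hv
    unfold VS at hv
    exact (mem_filter.1 hv).2.1
  have h6 : ∀ e ∈ NL src dst, ((VS src dst T).filter (fun v => src e = v ∨ dst e = v)).card ≤
      (if e ∈ ES src dst T then 2 else 0) + (if e ∈ crs src dst T then 1 else 0) := by
    intro e he
    have hsub : (VS src dst T).filter (fun v => src e = v ∨ dst e = v) ⊆ {src e, dst e} := by
      intro v hv
      rw [mem_filter] at hv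
      rw [mem_insert, mem_singleton]
      exact hv.2.imp Eq.symm Eq.symm
    by_cases hs : src e ∈ T
    · have hsub2 : (VS src dst T).filter (fun v => src e = v ∨ dst e = v) ⊆ {dst e} := by
        intro v hv
        have := hsub hv
        rw [mem_insert, mem_singleton] at this
        rw [mem_singleton]
        rcases this with rfl | h
        · exact absurd hs (hT _ (mem_filter.1 hv).1)
        · exact h
      by_cases hd : dst e ∈ T
      · have : (VS src dst T).filter (fun v => src e = v ∨ dst e = v) = ∅ := by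
          rw [eq_empty_iff_forall_notMem]
          intro v hv
          have h7 := mem_singleton.1 (hsub2 hv)
          subst h7
          exact hT _ (mem_filter.1 hv).1 hd
        rw [this, card_empty]
        exact Nat.zero_le _
      · have h7 : e ∈ crs src dst T := by
          rw [mem_crs]
          exact fun h => hd (h.1 hs)
        rw [if_pos h7]
        have := card_le_card hsub2
        rw [card_singleton] at this
        omega
    · by_cases hd : dst e ∈ T
      · have hsub2 : (VS src dst T).filter (fun v => src e = v ∨ dst e = v) ⊆ {src e} := by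
          intro v hv
          have := hsub hv
          rw [mem_insert, mem_singleton] at this
          rw [mem_singleton]
          rcases this with h | rfl
          · exact h
          · exact absurd hd (hT _ (mem_filter.1 hv).1)
        have h7 : e ∈ crs src dst T := by
          rw [mem_crs]
          exact fun h => hs (h.2 hd)
        rw [if_pos h7]
        have := card_le_card hsub2
        rw [card_singleton] at this
        omega
      · have h7 : e ∈ ES src dst T := by
          unfold ES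
          rw [mem_filter]
          exact ⟨mem_univ _, mem_NL.1 he, hs, hd⟩
        rw [if_pos h7]
        have := (card_le_card hsub).trans card_le_two
        omega
  refine (sum_le_sum h6).trans ?_
  rw [sum_add_distrib, ← sum_filter, ← sum_filter, sum_const, sum_const, smul_eq_mul, smul_eq_mul,
    mul_one]
  have h7 := card_le_card (show (NL src dst).filter (fun e => e ∈ ES src dst T) ⊆ ES src dst T from
    fun e he => (mem_filter.1 he).2)
  have h8 := card_le_card (show (NL src dst).filter (fun e => e ∈ crs src dst T) ⊆ crs src dst T from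
    fun e he => (mem_filter.1 he).2)
  omega

/-- the edges outside of `T` -/
theorem es_tc (T : Finset V) :
    (NL src dst).card = (ES src dst T).card + (Tc src dst T).card := by
  classical
  have h1 : ES src dst T = (NL src dst).filter (fun e => ¬ (src e ∈ T ∨ dst e ∈ T)) := by
    ext e
    unfold ES
    rw [mem_filter, mem_filter, mem_NL]
    simp only [mem_univ, true_and, not_or]
  rw [h1]
  unfold Tc
  rw [add_comm]
  exact (card_filter_add_card_filter_not _).symm

open Classical in
/-- the union of the balls -/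
noncomputable def UB (src dst : E → V) {k : ℕ} (c : Fin k → V) (s : Fin k → ℕ) : Finset V :=
  univ.biUnion (fun i => Bl src dst (c i) (s i))

theorem crs_UB {k : ℕ} (c : Fin k → V) (s : Fin k → ℕ) :
    (crs src dst (UB src dst c s)).card ≤ ∑ i, (crs src dst (Bl src dst (c i) (s i))).card := by
  classical
  refine le_trans (card_le_card ?_) card_biUnion_le
  intro e he
  obtain ⟨y, x, hy, hx, hj⟩ := crs_ends he
  obtain ⟨i, hi, hyi⟩ := mem_biUnion.1 hy
  exact mem_biUnion.2 ⟨i, hi, jn_crs hyi (fun h => hx (mem_biUnion.2 ⟨i, hi, h⟩)) hj⟩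

theorem tc_UB {k : ℕ} (c : Fin k → V) (s : Fin k → ℕ) :
    (Tc src dst (UB src dst c s)).card ≤ ∑ i, (Tc src dst (Bl src dst (c i) (s i))).card := by
  classical
  refine le_trans (card_le_card ?_) card_biUnion_le
  intro e he
  rw [mem_Tc] at he
  rcases he with ⟨hne, h | h⟩
  · obtain ⟨i, hi, hyi⟩ := mem_biUnion.1 h
    exact mem_biUnion.2 ⟨i, hi, mem_Tc.2 ⟨hne, Or.inl hyi⟩⟩
  · obtain ⟨i, hi, hyi⟩ := mem_biUnion.1 h
    exact mem_biUnion.2 ⟨i, hi, mem_Tc.2 ⟨hne, Or.inr hyi⟩⟩

theorem s_le {k : ℕ} {s : Fin k → ℕ} {g : ℕ → ℕ} (hg : ∀ n, 5 ≤ n → 64 ≤ g n)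
    (h : ∑ i, g (s i) ≤ 63) (i : Fin k) : s i ≤ 4 := by
  by_contra hc
  have h1 := hg (s i) (by omega)
  have h2 : g (s i) ≤ ∑ i, g (s i) := single_le_sum (f := fun i => g (s i))
    (fun _ _ => Nat.zero_le _) (mem_univ i)
  omega

theorem sums1 (h : Gd src dst) {k : ℕ} (c : Fin k → V) (s : Fin k → ℕ) (hs : ∀ i, s i ≤ 4) :
    63 * (2 * (crs src dst (UB src dst c s)).card + (Tc src dst (UB src dst c s)).card) ≤
      (∑ i, (2 ^ (s i + 2) - 1)) * (NL src dst).card := by
  have h1 := crs_UB (src := src) (dst := dst) c s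
  have h2 := tc_UB (src := src) (dst := dst) c s
  calc 63 * (2 * (crs src dst (UB src dst c s)).card + (Tc src dst (UB src dst c s)).card)
      ≤ 63 * (2 * ∑ i, (crs src dst (Bl src dst (c i) (s i))).card +
        ∑ i, (Tc src dst (Bl src dst (c i) (s i))).card) := by omega
    _ = ∑ i, 63 * (2 * (crs src dst (Bl src dst (c i) (s i))).card +
        (Tc src dst (Bl src dst (c i) (s i))).card) := by
        rw [← mul_sum, sum_add_distrib, ← mul_sum]
    _ ≤ ∑ i, (2 ^ (s i + 2) - 1) * (NL src dst).card := sum_le_sum fun i _ => ball1 h (c i) (hs i)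
    _ = _ := by rw [← sum_mul]

theorem sums2 (h : Gd src dst) {k : ℕ} (c : Fin k → V) (s : Fin k → ℕ) (hs : ∀ i, s i ≤ 4) :
    63 * ((crs src dst (UB src dst c s)).card + (Tc src dst (UB src dst c s)).card) ≤
      (∑ i, (3 * 2 ^ (s i) - 1)) * (NL src dst).card := by
  have h1 := crs_UB (src := src) (dst := dst) c s
  have h2 := tc_UB (src := src) (dst := dst) c s
  calc 63 * ((crs src dst (UB src dst c s)).card + (Tc src dst (UB src dst c s)).card)
      ≤ 63 * (∑ i, (crs src dst (Bl src dst (c i) (s i))).card +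
        ∑ i, (Tc src dst (Bl src dst (c i) (s i))).card) := by omega
    _ = ∑ i, 63 * ((crs src dst (Bl src dst (c i) (s i))).card +
        (Tc src dst (Bl src dst (c i) (s i))).card) := by
        rw [← mul_sum, sum_add_distrib]
    _ ≤ ∑ i, (3 * 2 ^ (s i) - 1) * (NL src dst).card := sum_le_sum fun i _ => ball2 h (c i) (hs i)
    _ = _ := by rw [← sum_mul]

theorem sums3 (h : Gd src dst) {k : ℕ} (c : Fin k → V) (s : Fin k → ℕ) (hs : ∀ i, s i ≤ 4) :
    189 * (Tc src dst (UB src dst c s)).card ≤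
      2 * ((∑ i, (3 * 2 ^ (s i) - 1)) * (NL src dst).card) := by
  have h2 := tc_UB (src := src) (dst := dst) c s
  calc 189 * (Tc src dst (UB src dst c s)).card
      ≤ 189 * ∑ i, (Tc src dst (Bl src dst (c i) (s i))).card := by omega
    _ = ∑ i, 189 * (Tc src dst (Bl src dst (c i) (s i))).card := by
        rw [← mul_sum]
    _ ≤ ∑ i, 2 * ((3 * 2 ^ (s i) - 1) * (NL src dst).card) :=
        sum_le_sum fun i _ => ball3 h (c i) (hs i)
    _ = _ := by rw [← mul_sum, ← sum_mul]

/-- not all edges touch the balls -/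
theorem vs_ne (h : Gd src dst) {x y : V} (hxy : Adj src dst x y) {k : ℕ} (c : Fin k → V)
    (s : Fin k → ℕ) (hs : ∀ i, s i ≤ 4) (hW : ∑ i, (3 * 2 ^ (s i) - 1) ≤ 63) :
    (VS src dst (UB src dst c s)).Nonempty := by
  rw [nonempty_iff_ne_empty]
  intro hem
  have h0 : (ES src dst (UB src dst c s)).card = 0 := by
    rw [card_eq_zero, eq_empty_iff_forall_notMem]
    intro e he
    have := (Surfx.hends (UB src dst c s) e he).1
    rw [hem] at this
    exact absurd this (notMem_empty _)
  have h9 := es_tc (src := src) (dst := dst) (UB src dst c s)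
  have h3 := sums3 h c s hs
  have h6 := NL_189 h hxy
  have h11 : (Tc src dst (UB src dst c s)).card = (NL src dst).card := by omega
  rw [h11] at h3
  have := Nat.mul_le_mul_right (NL src dst).card hW
  omega

/-- the numerical contradiction for surfaces -/
theorem numA {m n r z h X e t W W' : ℕ} (hX : X = m + t) (h1 : m + 1 ≤ z + n)
    (h2 : 3 * n ≤ 2 * m + e) (h4 : 1 ≤ r → 12 * (r + 1) ≤ 2 * m) (h5 : z ≤ r + h)
    (h6 : 189 ≤ X) (h7 : 63 * (2 * e + t) ≤ W * X) (h8 : 63 * (e + t) ≤ W' * X)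
    (hW : 2 * h + W ≤ 66) (hW1 : W ≤ 63) (hW2 : h + W' ≤ 63) : False := by
  rcases Nat.eq_zero_or_pos r with hr | hr
  · -- 3 m + 3 ≤ 3 h + 2 m + e
    have h9 : X + 3 ≤ 3 * h + (e + t) := by omega
    have h10 : 63 * X + 189 ≤ 189 * h + W' * X := by omega
    have h11 : W' ≤ 63 := by omega
    nlinarith [Nat.mul_le_mul_left (63 - W') h6, Nat.sub_add_cancel h11]
  · have h9 := h4 hr
    have h10 : X + 12 ≤ 6 * h + (2 * e + t) := by omega
    have h11 : 63 * X + 756 ≤ 378 * h + W * X := by omega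
    nlinarith [Nat.mul_le_mul_left (63 - W) h6, Nat.sub_add_cancel hW1]

/-- the numerical contradiction for the cyclomatic number -/
theorem numB {m n z X e t W' : ℕ} (hX : X = m + t) (h1 : m + 1 ≤ z + n)
    (h2 : 3 * n ≤ 2 * m + e) (h6 : 189 ≤ X) (h8 : 63 * (e + t) ≤ W' * X)
    (hW : z + W' ≤ 63) : False := by
  have h9 : X + 3 ≤ 3 * z + (e + t) := by omega
  have h10 : 63 * X + 189 ≤ 189 * z + W' * X := by omega
  have h11 : W' ≤ 63 := by omega
  nlinarith [Nat.mul_le_mul_left (63 - W') h6, Nat.sub_add_cancel h11]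

end

/-- a class closed under contractions without counterexamples -/
theorem frame' {V E : Type} [Fintype V] [DecidableEq V] [Fintype E] [DecidableEq E]
    (Cl : (E → V) → (E → V) → Prop) (hCl : CC Cl)
    (hfin : ∀ s d : E → V, Cl s d → Gd s d → ∀ x y, Adj s d x y → False)
    (src dst : E → V) (hcl : Cl src dst) (hbr : Br src dst ∅ ∅) : FlowOn src dst ∅ ∅ := by
  classical
  by_contra hn
  obtain ⟨s, d, hS, hM⟩ := exists_minC hCl src dst hcl hbr hn
  have h3 := threeC contract_all hM
  have hgi := girthC contract_all hM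
  by_cases hl : ∀ e, s e = d e
  · exact hM.nf (flow_of_loops hl)
  push Not at hl
  obtain ⟨e, he⟩ := hl
  exact hfin s d hS ⟨hgi, fun e e' x y hxy h h' => no_par contract_all hM hxy h h', h3⟩ (s e) (d e)
    ⟨he, e, Or.inl ⟨rfl, rfl⟩⟩

section
variable {V E : Type} [Fintype V] [DecidableEq V] [Fintype E] [DecidableEq E]

theorem sum_comp {k : ℕ} (s : Fin k → ℕ) :
    (∑ i, (3 * 2 ^ (s i) - 1)) + k ≤ ∑ i, (2 ^ (s i + 2) - 1) := by
  have h : ∀ i : Fin k, (3 * 2 ^ (s i) - 1) + 1 ≤ 2 ^ (s i + 2) - 1 := by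
    intro i
    have h1 : 1 ≤ 2 ^ (s i) := Nat.one_le_two_pow
    have h2 : 2 ^ (s i + 2) = 4 * 2 ^ (s i) := by rw [pow_add]; ring
    rw [h2]
    omega
  have h1 := sum_le_sum (s := (univ : Finset (Fin k))) (fun i _ => h i)
  rw [sum_add_distrib, sum_const, card_univ, Fintype.card_fin, smul_eq_mul, mul_one] at h1
  exact h1

theorem pow_le {k : ℕ} {s : Fin k → ℕ} (h : ∑ i, (2 ^ (s i + 2) - 1) ≤ 63) (i : Fin k) :
    s i ≤ 4 :=
  s_le (g := fun n => 2 ^ (n + 2) - 1) (fun n hn => by
    have h1 : 2 ^ 7 ≤ 2 ^ (n + 2) := Nat.pow_le_pow_right (by norm_num) (by omega)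
    show 64 ≤ 2 ^ (n + 2) - 1
    norm_num at h1
    omega) h i

theorem pow_le' {k : ℕ} {s : Fin k → ℕ} (h : ∑ i, (3 * 2 ^ (s i) - 1) ≤ 63) (i : Fin k) :
    s i ≤ 4 :=
  s_le (g := fun n => 3 * 2 ^ n - 1) (fun n hn => by
    have h1 : 2 ^ 5 ≤ 2 ^ n := Nat.pow_le_pow_right (by norm_num) (by omega)
    show 64 ≤ 3 * 2 ^ n - 1
    norm_num at h1
    omega) h i

/-- **surfaces outside balls** -/
theorem surfaces {k : ℕ} (s : Fin k → ℕ) (h : ℕ) (hW : 2 * h + ∑ i, (2 ^ (s i + 2) - 1) ≤ 66)
    (hW1 : ∑ i, (2 ^ (s i + 2) - 1) ≤ 63) (src dst : E → V)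
    (hcl : Cl (fun src dst F => Mac h src dst F) s src dst) (hbr : Br src dst ∅ ∅) :
    FlowOn src dst ∅ ∅ := by
  classical
  refine frame' _ (ccCl (minor_mac h) s) ?_ src dst hcl hbr
  rintro S D ⟨c, T0, hT0, hM0⟩ hG x y hxy
  set T := UB S D c s with hT
  have hsub : T0 ⊆ T := by
    intro v hv
    obtain ⟨i, hi⟩ := hT0 v hv
    exact mem_biUnion.2 ⟨i, mem_univ _, hi⟩
  have hM : Mac h S D (ES S D T) := by
    refine (minor_mac h).sub S D _ _ hM0 ?_
    intro e he
    unfold ES at he ⊢
    rw [mem_filter] at he ⊢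
    exact ⟨he.1, he.2.1, fun h => he.2.2.1 (hsub h), fun h => he.2.2.2 (hsub h)⟩
  obtain ⟨l, K, k1, k2, k3⟩ := hM
  have h6 := NL_189 hG hxy
  have hs := pow_le hW1
  have h7 := sums1 hG c s hs
  have h8 := sums2 hG c s hs
  rw [← hT] at h7 h8
  have h9 := es_tc (src := S) (dst := D) T
  have h10 := sum_comp s
  have hW2 : h + ∑ i, (3 * 2 ^ (s i) - 1) ≤ 63 := by
    rcases Nat.eq_zero_or_pos k with hk | hk
    · subst hk
      simp only [univ_eq_empty, sum_empty, add_zero] at hW ⊢
      omega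
    · by_cases hh : h ≤ 1
      · omega
      · omega
  have hne : (VS S D T).Nonempty := vs_ne hG hxy c s hs (by omega)
  have e1 := dim V E S D (ES S D T) (VS S D T) hne (Surfx.hends T)
  have e2 := deg_out hG T
  have e4 := facesG V E S D (ES S D T) l 12 K k1 k2
    (even_all V E S D (ES S D T) 12 hG.g hG.p (by
      intro e he
      unfold ES at he
      rw [mem_filter] at he
      exact he.2.1))
  exact numA h9 e1 e2 e4 k3 h6 h7 h8 hW hW1 hW2

/-- **few circuits outside balls** -/
theorem circuits {k : ℕ} (s : Fin k → ℕ) (N : ℕ) (hW : N + ∑ i, (3 * 2 ^ (s i) - 1) ≤ 63)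
    (src dst : E → V)
    (hcl : Cl (fun src dst F => Module.finrank (ZMod 2) (ZF src dst F) ≤ N) s src dst)
    (hbr : Br src dst ∅ ∅) : FlowOn src dst ∅ ∅ := by
  classical
  refine frame' _ (ccCl (minor_cyc N) s) ?_ src dst hcl hbr
  rintro S D ⟨c, T0, hT0, hM0⟩ hG x y hxy
  set T := UB S D c s with hT
  have hsub : T0 ⊆ T := by
    intro v hv
    obtain ⟨i, hi⟩ := hT0 v hv
    exact mem_biUnion.2 ⟨i, mem_univ _, hi⟩
  have hM : Module.finrank (ZMod 2) (ZF S D (ES S D T)) ≤ N := by
    refine (minor_cyc N).sub S D _ _ hM0 ?_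
    intro e he
    unfold ES at he ⊢
    rw [mem_filter] at he ⊢
    exact ⟨he.1, he.2.1, fun h => he.2.2.1 (hsub h), fun h => he.2.2.2 (hsub h)⟩
  have h6 := NL_189 hG hxy
  have hs := pow_le' (s := s) (by omega)
  have h8 := sums2 hG c s hs
  rw [← hT] at h8
  have h9 := es_tc (src := S) (dst := D) T
  have e2 := deg_out hG T
  have hne : (VS S D T).Nonempty := vs_ne hG hxy c s hs (by omega)
  have e1 := dim V E S D (ES S D T) (VS S D T) hne (Surfx.hends T)
  exact numB h9 e1 e2 h6 h8 (by omega)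

end

end Pool.Agent.Q287.FL.Around
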