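import Pool.Agent.Q287.FL.Frame

/-! # Few vertices of degree at least three outside a ball -/

set_option autoImplicit false
set_option linter.unusedSectionVars false

namespace Pool.Agent.Q287.FL

open Finset Pool.Agent.TH676.Z Pool.Agent.Y335.FL Pool.Agent.Y358.IN

/-- distance at most `r` -/
def Near {V E : Type} (src dst : E → V) (r : ℕ) (c v : V) : Prop :=
  ∃ p : ℕ → V, p 0 = c ∧ p r = v ∧ ∀ i < r, p i = p (i + 1) ∨ Adj src dst (p i) (p (i + 1))

section
variable {V E : Type} [Fintype V] [DecidableEq V] [Fintype E] [DecidableEq E]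

theorem near_ctr {src dst : E → V} {u v : V} {r : ℕ} {c x : V} (h : Near src dst r c x) :
    Near (ctr u v ∘ src) (ctr u v ∘ dst) r (ctr u v c) (ctr u v x) := by
  obtain ⟨p, h0, hr, hp⟩ := h
  refine ⟨fun i => ctr u v (p i), congrArg _ h0, congrArg _ hr, fun i hi => ?_⟩
  rcases hp i hi with h1 | h1
  · exact Or.inl (congrArg _ h1)
  · by_cases h2 : ctr u v (p i) = ctr u v (p (i + 1))
    · exact Or.inl h2
    · exact Or.inr (adj_ctr h1 h2)

open Classical in
/-- the vertices of degree at least three outside the ball -/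
noncomputable def Out (src dst : E → V) (r : ℕ) (c : V) : Finset V :=
  univ.filter (fun v => 3 ≤ dg src dst v ∧ ¬ Near src dst r c v)

def ClB (r : ℕ) (src dst : E → V) : Prop := ∃ c, (Out src dst r c).card + 3 * 2 ^ r ≤ 127

theorem ccB (r : ℕ) : CC (V := V) (E := E) (ClB r) := by
  classical
  intro src dst e h hne
  obtain ⟨c, hc⟩ := h
  set u := src e with hu
  set v := dst e with hv
  suffices hsub : Out (ctr u v ∘ src) (ctr u v ∘ dst) r (ctr u v c) ⊆
      (Out src dst r c).image (ctr u v) by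
    have h1 := (card_le_card hsub).trans card_image_le
    exact ⟨ctr u v c, by omega⟩
  intro x hx
  unfold Out at hx
  rw [mem_filter] at hx
  obtain ⟨-, h1, h2⟩ := hx
  have hxv : x ≠ v := by
    intro h
    rw [h, Ord.dg_ctr_v src dst hne] at h1
    omega
  obtain ⟨w, hw, hwd⟩ : ∃ w, ctr u v w = x ∧ 3 ≤ dg src dst w := by
    by_cases hxu : x = u
    · rw [hxu] at h1 ⊢
      have h3 : dg (ctr u v ∘ src) (ctr u v ∘ dst) u + 2 ≤ dg src dst u + dg src dst v :=
        Ord.dg_ctr_u src dst e hne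
      by_cases h4 : 3 ≤ dg src dst u
      · exact ⟨u, ctr_u _ _ hne, h4⟩
      · exact ⟨v, ctr_v _ _, by omega⟩
    · exact ⟨x, ctr_of_ne hxv, h1.trans (Ord.dg_ctr_other src dst hxu)⟩
  refine mem_image.2 ⟨w, ?_, hw⟩
  unfold Out
  refine mem_filter.2 ⟨mem_univ _, hwd, fun h => h2 ?_⟩
  rw [← hw]
  exact near_ctr h

end

section
variable {V : Type} [Fintype V] [DecidableEq V] {G : SimpleGraph V}

/-- a lazy walk gives a path -/
theorem path_of_lazy {p : ℕ → V} (r : ℕ) (hp : ∀ i < r, p i = p (i + 1) ∨ G.Adj (p i) (p (i + 1))) :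
    ∃ q : G.Walk (p 0) (p r), q.IsPath ∧ q.length ≤ r := by
  classical
  have h : ∃ q : G.Walk (p 0) (p r), q.length ≤ r := by
    induction r with
    | zero => exact ⟨SimpleGraph.Walk.nil, le_rfl⟩
    | succ r ih =>
      obtain ⟨q, hq⟩ := ih (fun i hi => hp i (by omega))
      rcases hp r (by omega) with h1 | h1
      · exact ⟨q.copy rfl h1, by rw [SimpleGraph.Walk.length_copy]; omega⟩
      · exact ⟨q.concat h1, by rw [SimpleGraph.Walk.length_concat]; omega⟩
  obtain ⟨q, hq⟩ := h
  exact ⟨q.bypass, q.bypass_isPath, (SimpleGraph.Walk.length_bypass_le_length q).trans hq⟩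

/-- the ends of the paths of length `j + 1` from `c` -/
noncomputable def Sp (G : SimpleGraph V) (c : V) (B : Finset V) (j : ℕ) : Finset V :=
  B.biUnion (fun b => Ord.Bs G j b c)

theorem mem_Sp {c : V} {B : Finset V} (hB : ∀ b ∈ B, G.Adj c b) {j : ℕ} {z : V}
    (h : z ∈ Sp G c B j) : ∃ q : G.Walk c z, q.IsPath ∧ q.length = j + 1 := by
  obtain ⟨b, hb, hz⟩ := mem_biUnion.1 h
  obtain ⟨p, hp, hpl, hcp⟩ := Ord.mem_Bs.1 hz
  refine ⟨SimpleGraph.Walk.cons (hB b hb) p, (SimpleGraph.Walk.cons_isPath_iff _ p).2 ⟨hp, hcp⟩, ?_⟩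
  rw [SimpleGraph.Walk.length_cons, hpl]

theorem card_Sp (hG : Good G) {c : V} {B : Finset V} (hB : ∀ b ∈ B, G.Adj c b) {j : ℕ}
    (hj : j ≤ 4) : B.card * 2 ^ j ≤ (Sp G c B j).card := by
  unfold Sp
  rw [card_biUnion, ← smul_eq_mul, ← sum_const]
  · exact sum_le_sum fun b hb => Ord.card_Bs hG.h12 hG.h3 (hB b hb).symm j (by omega)
  · intro b hb b' hb' hne
    change Disjoint (Ord.Bs G j b c) (Ord.Bs G j b' c)
    rw [disjoint_left]
    intro z hz hz'
    obtain ⟨p, hp, hpl, hcp⟩ := Ord.mem_Bs.1 hz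
    obtain ⟨q, hq, hql, hcq⟩ := Ord.mem_Bs.1 hz'
    have h1 := Ord.uniq hG.h12
      ((SimpleGraph.Walk.cons_isPath_iff (hB b (mem_coe.1 hb)) p).2 ⟨hp, hcp⟩)
      ((SimpleGraph.Walk.cons_isPath_iff (hB b' (mem_coe.1 hb')) q).2 ⟨hq, hcq⟩) (by
        rw [SimpleGraph.Walk.length_cons, SimpleGraph.Walk.length_cons]
        omega)
    have h2 := congrArg SimpleGraph.Walk.support h1
    rw [SimpleGraph.Walk.support_cons, SimpleGraph.Walk.support_cons, List.cons.injEq] at h2
    have h3 := congrArg List.head? h2.2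
    rw [SimpleGraph.Walk.support_eq_cons p, SimpleGraph.Walk.support_eq_cons q] at h3
    simp only [List.head?_cons, Option.some.injEq] at h3
    exact hne h3

/-- there are many vertices outside a ball -/
theorem many_out (hG : Good G) (r : ℕ) (hr : r ≤ 5) (c : V) (x y : V) (hxy : G.Adj x y)
    (O : Finset V) (hO : ∀ v, (∃ w, G.Adj v w) →
      (∀ q : G.Walk c v, q.IsPath → ¬ q.length ≤ r) → v ∈ O) : 128 ≤ O.card + 3 * 2 ^ r := by
  classical
  by_cases hc : ∃ b, G.Adj c b
  · obtain ⟨b, hb⟩ := hc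
    obtain ⟨b1, b2, b3, h1, h2, h3, h12, h13, h23⟩ := hG.h3 c b hb
    set B : Finset V := {b1, b2, b3} with hBdef
    have hBc : B.card = 3 := by
      rw [hBdef, card_insert_of_notMem (by simp [h12, h13]), card_pair h23]
    have hB : ∀ b ∈ B, G.Adj c b := by
      intro b hb
      simp only [hBdef, mem_insert, mem_singleton] at hb
      rcases hb with rfl | rfl | rfl <;> assumption
    have hB1 : ∀ b ∈ ({b1} : Finset V), G.Adj c b := by
      intro b hb
      rw [mem_singleton] at hb
      rw [hb]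
      exact h1
    -- the levels
    set L : ℕ → Finset V := fun j => if j = 5 then Sp G c {b1} 5 else Sp G c B j with hL
    have hmem : ∀ j z, z ∈ L j → ∃ q : G.Walk c z, q.IsPath ∧ q.length = j + 1 := by
      intro j z hz
      simp only [hL] at hz
      split_ifs at hz with h
      · rw [h]
        exact mem_Sp hB1 hz
      · exact mem_Sp hB hz
    have hsub : (Ico r 6).biUnion L ⊆ O := by
      intro z hz
      obtain ⟨j, hj, hz⟩ := mem_biUnion.1 hz
      have hj' := mem_Ico.1 hj
      obtain ⟨q, hq, hql⟩ := hmem j z hz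
      refine hO z (Ord.nbr hb q) fun p hp hpl => ?_
      have h4 := Ord.uniq hG.h12 hp hq (by omega)
      rw [h4] at hpl
      omega
    have hcard : ((Ico r 6).biUnion L).card = ∑ j ∈ Ico r 6, (L j).card := by
      rw [card_biUnion]
      intro i hi j hj hij
      change Disjoint (L i) (L j)
      rw [disjoint_left]
      intro z hz hz'
      obtain ⟨p, hp, hpl⟩ := hmem i z hz
      obtain ⟨q, hq, hql⟩ := hmem j z hz'
      have hi' := mem_Ico.1 (mem_coe.1 hi)
      have hj' := mem_Ico.1 (mem_coe.1 hj)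
      have h4 := Ord.uniq hG.h12 hp hq (by omega)
      rw [h4] at hpl
      omega
    have hlow : ∀ j ∈ Ico r 6, (if j = 5 then 32 else 3 * 2 ^ j) ≤ (L j).card := by
      intro j hj
      have hj' := mem_Ico.1 hj
      simp only [hL]
      split_ifs with h
      · unfold Sp
        rw [singleton_biUnion]
        exact Ord.card_Bs hG.h12 hG.h3 h1.symm 5 le_rfl
      · have h5 := card_Sp hG hB (j := j) (by omega)
        rwa [hBc] at h5
    have h6 := card_le_card hsub
    rw [hcard] at h6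
    have h7 := (sum_le_sum hlow).trans h6
    have h8 : 128 ≤ (∑ j ∈ Ico r 6, (if j = 5 then 32 else 3 * 2 ^ j)) + 3 * 2 ^ r := by
      interval_cases r <;> decide
    omega
  · have h1 := card_Po hG.h12 hG.h3 hxy
    have h2 : Po G x ∪ Po G y ⊆ O := by
      intro v hv
      have h3 : ∃ w, G.Adj v w := by
        rcases mem_union.1 hv with h | h
        · obtain ⟨p, _, _, _⟩ := mem_Po.1 h
          exact Ord.nbr hxy p
        · obtain ⟨p, _, _, _⟩ := mem_Po.1 h
          exact Ord.nbr hxy.symm p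
      refine hO v h3 fun q _ _ => ?_
      by_cases hn : q.Nil
      · have := hn.eq
        subst this
        exact hc h3
      · exact hc ⟨_, q.adj_snd hn⟩
    have h3 := card_le_card h2
    have h4 : 1 ≤ 2 ^ r := Nat.one_le_two_pow
    omega

end

theorem flow_of_ClB {V E : Type} [Fintype V] [DecidableEq V] [Fintype E] [DecidableEq E]
    (r : ℕ) (hr : r ≤ 5) (src dst : E → V) (hcl : ClB r src dst) (hbr : Br src dst ∅ ∅) :
    FlowOn src dst ∅ ∅ := by
  classical
  refine frame (ClB r) (ccB r) ?_ src dst hcl hbr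
  rintro s d ⟨c, hc⟩ G hGA hG x y hxy
  have h1 := many_out hG r hr c x y hxy (Out s d r c) (fun v hv hq => by
    unfold Out
    refine mem_filter.2 ⟨mem_univ _, ?_, ?_⟩
    · obtain ⟨w, hw⟩ := hv
      exact Ord.three_dg (fun x y h => by
        obtain ⟨a, b, c, h1, h2, h3, h4⟩ := hG.h3 x y ((hGA x y).2 h)
        exact ⟨a, b, c, (hGA _ _).1 h1, (hGA _ _).1 h2, (hGA _ _).1 h3, h4⟩) ((hGA v w).1 hw)
    · rintro ⟨p, h0, hpr, hp⟩
      obtain ⟨q, hq1, hq2⟩ := path_of_lazy (G := G) (p := p) r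
        (fun i hi => (hp i hi).imp id (fun h => (hGA _ _).2 h))
      subst h0
      subst hpr
      exact hq q hq1 hq2)
  omega

end Pool.Agent.Q287.FL
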