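import Pool.Agent.Q287.FL.Frame

/-! # Dominating sets -/

set_option autoImplicit false
set_option linter.unusedSectionVars false

namespace Pool.Agent.Q287.FL.Dom

open Finset Pool.Agent.TH676.Z Pool.Agent.Y335.FL Pool.Agent.Y358.IN Pool.Agent.Y335.FL.Ahl

section tree

variable {V : Type} [Fintype V] [DecidableEq V] {G : SimpleGraph V}

/-- two other neighbours -/
structure Ch (G : SimpleGraph V) (ch : V → V → Bool → V) : Prop where
  adj : ∀ a b i, G.Adj a b → G.Adj b (ch a b i)
  ne : ∀ a b i, G.Adj a b → ch a b i ≠ a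
  two : ∀ a b, G.Adj a b → ch a b false ≠ ch a b true

theorem exists_ch (hG : Good G) : ∃ ch : V → V → Bool → V, Ch G ch := by
  have h : ∀ a b, ∃ f : Bool → V, G.Adj a b →
      (∀ i, G.Adj b (f i)) ∧ (∀ i, f i ≠ a) ∧ f false ≠ f true := by
    intro a b
    by_cases hab : G.Adj a b
    · obtain ⟨p, q, r, hp, hq, hr, hpq, hpr, hqr⟩ := hG.h3 b a hab.symm
      by_cases h1 : p = a
      · refine ⟨fun i => if i then q else r, fun _ => ⟨fun i => ?_, fun i => ?_, ?_⟩⟩
        · cases i
          · exact hr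
          · exact hq
        · cases i
          · exact fun h => hpr (h1.trans h.symm)
          · exact fun h => hpq (h1.trans h.symm)
        · exact hqr.symm
      · by_cases h2 : q = a
        · refine ⟨fun i => if i then p else r, fun _ => ⟨fun i => ?_, fun i => ?_, ?_⟩⟩
          · cases i
            · exact hr
            · exact hp
          · cases i
            · exact fun h => hqr (h2.trans h.symm)
            · exact h1
          · exact hpr.symm
        · refine ⟨fun i => if i then p else q, fun _ => ⟨fun i => ?_, fun i => ?_, ?_⟩⟩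
          · cases i
            · exact hq
            · exact hp
          · cases i
            · exact h2
            · exact h1
          · exact hpq.symm
    · exact ⟨fun _ => a, fun h => absurd h hab⟩
  choose ch hch using h
  exact ⟨ch, ⟨fun a b i h => (hch a b h).1 i, fun a b i h => (hch a b h).2.1 i,
    fun a b h => (hch a b h).2.2⟩⟩

/-- the binary tree with root `b` away from `a` -/
def U (ch : V → V → Bool → V) : ℕ → V → V → Finset V
  | 0, _, b => {b}
  | n + 1, a, b => insert b (U ch n b (ch a b false) ∪ U ch n b (ch a b true))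

variable {ch : V → V → Bool → V}

theorem root_mem (n : ℕ) (a b : V) : b ∈ U ch n a b := by
  cases n with
  | zero => exact mem_singleton_self _
  | succ n => exact mem_insert_self _ _

theorem child_sub (n : ℕ) (a b : V) (j : Bool) : U ch n b (ch a b j) ⊆ U ch (n + 1) a b := by
  intro z hz
  refine mem_insert_of_mem ?_
  cases j
  · exact mem_union_left _ hz
  · exact mem_union_right _ hz

theorem mem_succ {n : ℕ} {a b z : V} (h : z ∈ U ch (n + 1) a b) :
    z = b ∨ ∃ j, z ∈ U ch n b (ch a b j) := by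
  rcases mem_insert.1 h with h | h
  · exact Or.inl h
  · rcases mem_union.1 h with h | h
    · exact Or.inr ⟨false, h⟩
    · exact Or.inr ⟨true, h⟩

theorem mono : ∀ (n : ℕ) (a b : V), U ch n a b ⊆ U ch (n + 1) a b := by
  intro n
  induction n with
  | zero =>
    intro a b z hz
    rw [mem_singleton.1 hz]
    exact root_mem 1 a b
  | succ n ih =>
    intro a b z hz
    rcases mem_succ hz with rfl | ⟨j, h⟩
    · exact root_mem _ a z
    · exact child_sub (n + 1) a b j (ih _ _ h)

/-- one edge -/
theorem one_step {a b : V} (hab : G.Adj a b) (X : Finset V) (hb : b ∈ X) :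
    ∃ v : ℕ → V, NB G.Adj (0 + 1) v ∧ v 0 = a ∧ v 1 = b ∧ v (0 + 1) = b ∧
      ∀ k, 1 ≤ k → k ≤ 0 + 1 → v k ∈ X := by
  refine ⟨fun k => if k = 0 then a else b, ⟨fun k hk => ?_, fun k hk => by omega⟩,
    by simp, by simp, by simp, fun k h1 h2 => ?_⟩
  · have h1 : k = 0 := by omega
    subst h1
    simpa using hab
  · have h3 : k ≠ 0 := by omega
    simp only [if_neg h3]
    exact hb

theorem down (hc : Ch G ch) : ∀ (n : ℕ) (a b z : V), G.Adj a b → z ∈ U ch n a b →
    ∃ i ≤ n, ∃ v : ℕ → V, NB G.Adj (i + 1) v ∧ v 0 = a ∧ v 1 = b ∧ v (i + 1) = z ∧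
      ∀ k, 1 ≤ k → k ≤ i + 1 → v k ∈ U ch n a b := by
  intro n
  induction n with
  | zero =>
    intro a b z hab hz
    rw [mem_singleton.1 hz]
    exact ⟨0, le_rfl, one_step hab _ (root_mem 0 a b)⟩
  | succ n ih =>
    intro a b z hab hz
    rcases mem_succ hz with h | ⟨j, h⟩
    · rw [h]
      exact ⟨0, by omega, one_step hab _ (root_mem _ a b)⟩
    · obtain ⟨i, hi, v, hv, h0, h1, h2, h3⟩ := ih b (ch a b j) z (hc.adj a b j hab) h
      refine ⟨i + 1, by omega, fun k => if k = 0 then a else v (k - 1),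
        ⟨fun k hk => ?_, fun k hk => ?_⟩, by simp, by simpa using h0, by simpa using h2,
        fun k h4 h5 => ?_⟩
      · rcases k with _ | k
        · simpa [h0] using hab
        · have h6 := hv.adj k (by omega)
          simpa using h6
      · rcases k with _ | k
        · simpa [h1] using (hc.ne a b j hab).symm
        · have h6 := hv.nb k (by omega)
          simpa using h6
      · have h6 : k ≠ 0 := by omega
        simp only [if_neg h6]
        by_cases h7 : k = 1
        · rw [h7]
          simp only [Nat.sub_self, h0]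
          exact root_mem _ a b
        · exact child_sub n a b j (h3 (k - 1) (by omega) (by omega))

theorem rev {L : ℕ} {v : ℕ → V} (h : NB G.Adj L v) : NB G.Adj L (fun k => v (L - k)) := by
  constructor
  · intro k hk
    have h1 := h.adj (L - (k + 1)) (by omega)
    rw [show L - (k + 1) + 1 = L - k by omega] at h1
    exact h1.symm
  · intro k hk
    have h1 := h.nb (L - (k + 2)) (by omega)
    rw [show L - (k + 2) + 2 = L - k by omega] at h1
    exact h1.symm

theorem ne_end (hG : Good G) {L : ℕ} {v : ℕ → V} (h : NB G.Adj L v) (i j : ℕ) (hij : i < j)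
    (hj : j ≤ L) (hL : L ≤ 11) : v i ≠ v j :=
  h.ne (fun a => G.loopless.irrefl a) hG.g12 hL i j hij hj

theorem not_adj (hG : Good G) {L : ℕ} {v : ℕ → V} (h : NB G.Adj L v) (h2 : 2 ≤ L)
    (h10 : L ≤ 10) : ¬ G.Adj (v 0) (v L) := by
  intro hadj
  have hw : NB G.Adj (L + 1) (fun k => if k ≤ L then v k else v 0) := by
    constructor
    · intro k hk
      by_cases h1 : k + 1 ≤ L
      · simp only [if_pos h1, if_pos (show k ≤ L by omega)]
        exact h.adj k h1
      · have h3 : k = L := by omega
        simp only [if_neg h1, if_pos (show k ≤ L by omega)]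
        rw [h3]
        exact hadj.symm
    · intro k hk
      by_cases h1 : k + 2 ≤ L
      · simp only [if_pos h1, if_pos (show k ≤ L by omega)]
        exact h.nb k h1
      · simp only [if_neg h1, if_pos (show k ≤ L by omega)]
        exact (ne_end hG h 0 k (by omega) (by omega) (by omega)).symm
  have h3 := ne_end hG hw 0 (L + 1) (by omega) le_rfl (by omega)
  simp only [if_pos (Nat.zero_le L), if_neg (show ¬ L + 1 ≤ L by omega)] at h3
  exact h3 rfl

theorem no_two (hG : Good G) {L : ℕ} {v : ℕ → V} (h : NB G.Adj L v) (h1 : 1 ≤ L) (h9 : L ≤ 9)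
    {c : V} (hc : ∀ k ≤ L, v k ≠ c) (ha : G.Adj c (v 0)) (hb : G.Adj c (v L)) : False := by
  have hw : NB G.Adj (L + 1) (fun k => if k = 0 then c else v (k - 1)) := by
    constructor
    · intro k hk
      rcases k with _ | k
      · simpa using ha
      · have h6 := h.adj k (by omega)
        simpa using h6
    · intro k hk
      rcases k with _ | k
      · have h6 := (hc 1 (by omega)).symm
        simpa using h6
      · have h6 := h.nb k (by omega)
        simpa using h6
  exact not_adj hG hw (by omega) (by omega) (by simpa using hb)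

/-- two branches at `b` -/
theorem fork {b p q : V} (hpq : p ≠ q) {i j : ℕ} {v w : ℕ → V}
    (hv : NB G.Adj (i + 1) v) (h0 : v 0 = b) (h1 : v 1 = p)
    (hw : NB G.Adj (j + 1) w) (k0 : w 0 = b) (k1 : w 1 = q) :
    NB G.Adj (i + 1 + (j + 1))
      (fun k => if k ≤ i + 1 then v (i + 1 - k) else w (k - (i + 1))) :=
  join (fun a b h => h.symm) hv hw (h0.trans k0.symm) (fun _ _ h => hpq (by rw [← h1, h, k1]))

theorem fork_far (hG : Good G) {b p q : V} (hpq : p ≠ q) {i j : ℕ} {v w : ℕ → V}
    (hv : NB G.Adj (i + 1) v) (h0 : v 0 = b) (h1 : v 1 = p)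
    (hw : NB G.Adj (j + 1) w) (k0 : w 0 = b) (k1 : w 1 = q) (hij : i + j ≤ 8) :
    v (i + 1) ≠ w (j + 1) ∧ ¬ G.Adj (v (i + 1)) (w (j + 1)) := by
  have h := fork hpq hv h0 h1 hw k0 k1
  have h2 := ne_end hG h 0 (i + 1 + (j + 1)) (by omega) le_rfl (by omega)
  have h3 := not_adj hG h (by omega) (by omega)
  simp only [if_pos (Nat.zero_le (i + 1)), Nat.sub_zero,
    if_neg (show ¬ i + 1 + (j + 1) ≤ i + 1 by omega), Nat.add_sub_cancel_left] at h2 h3
  exact ⟨h2, h3⟩

theorem between (hc : Ch G ch) : ∀ (n : ℕ) (a b z z' : V), G.Adj a b → z ∈ U ch n a b →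
    z' ∈ U ch n a b → z ≠ z' → ∃ L, 1 ≤ L ∧ L ≤ 2 * n ∧ ∃ v : ℕ → V, NB G.Adj L v ∧ v 0 = z ∧
      v L = z' ∧ ∀ k ≤ L, v k ∈ U ch n a b := by
  intro n
  induction n with
  | zero =>
    intro a b z z' _ hz hz' hne
    exact absurd ((mem_singleton.1 hz).trans (mem_singleton.1 hz').symm) hne
  | succ n ih =>
    intro a b z z' hab hz hz' hne
    have root : ∀ j w, w ∈ U ch n b (ch a b j) → ∃ L, 1 ≤ L ∧ L ≤ n + 1 ∧ ∃ v : ℕ → V,
        NB G.Adj L v ∧ v 0 = b ∧ v L = w ∧ ∀ k ≤ L, v k ∈ U ch (n + 1) a b := by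
      intro j w hw
      obtain ⟨i, hi, v, hv, h0, h1, h2, h3⟩ := down hc n b (ch a b j) w (hc.adj a b j hab) hw
      refine ⟨i + 1, by omega, by omega, v, hv, h0, h2, fun k hk => ?_⟩
      rcases Nat.eq_zero_or_pos k with rfl | h4
      · rw [h0]
        exact root_mem _ a b
      · exact child_sub n a b j (h3 k h4 hk)
    rcases mem_succ hz with h | ⟨j, h⟩ <;> rcases mem_succ hz' with h' | ⟨j', h'⟩
    · exact absurd (h.trans h'.symm) hne
    · obtain ⟨L, h1, h2, v, hv, h3, h4, h5⟩ := root j' z' h'
      exact ⟨L, h1, by omega, v, hv, h3.trans h.symm, h4, h5⟩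
    · obtain ⟨L, h1, h2, v, hv, h3, h4, h5⟩ := root j z h
      refine ⟨L, h1, by omega, fun k => v (L - k), rev hv, ?_, ?_, fun k hk => h5 _ (by omega)⟩
      · simpa using h4
      · simp only [Nat.sub_self]
        exact h3.trans h'.symm
    · by_cases hj : j = j'
      · subst hj
        obtain ⟨L, h1, h2, v, hv, h3, h4, h5⟩ := ih b (ch a b j) z z' (hc.adj a b j hab) h h' hne
        exact ⟨L, h1, by omega, v, hv, h3, h4, fun k hk => child_sub n a b j (h5 k hk)⟩
      · obtain ⟨i, hi, v, hv, h0, h1, h2, h3⟩ := down hc n b (ch a b j) z (hc.adj a b j hab) h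
        obtain ⟨i', hi', w, hw, k0, k1, k2, k3⟩ :=
          down hc n b (ch a b j') z' (hc.adj a b j' hab) h'
        have hpq : ch a b j ≠ ch a b j' := by
          have := hc.two a b hab
          cases j <;> cases j' <;> first | exact absurd rfl hj | exact this | exact this.symm
        refine ⟨i + 1 + (i' + 1), by omega, by omega, _, fork hpq hv h0 h1 hw k0 k1, ?_, ?_,
          fun k hk => ?_⟩
        · simpa using h2
        · simp only [if_neg (show ¬ i + 1 + (i' + 1) ≤ i + 1 by omega)]
          rw [show i + 1 + (i' + 1) - (i + 1) = i' + 1 by omega]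
          exact k2
        · by_cases h4 : k ≤ i + 1
          · simp only [if_pos h4]
            rcases Nat.eq_zero_or_pos (i + 1 - k) with h5 | h5
            · rw [h5, h0]
              exact root_mem _ a b
            · exact child_sub n a b j (h3 _ h5 (by omega))
          · simp only [if_neg h4]
            exact child_sub n a b j' (k3 _ (by omega) (by omega))

theorem single (hG : Good G) (hc : Ch G ch) {n : ℕ} (hn : n ≤ 4) {a b c : V} (hab : G.Adj a b)
    (hcU : c ∉ U ch n a b) {z z' : V} (hz : z ∈ U ch n a b) (hz' : z' ∈ U ch n a b)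
    (h : G.Adj c z) (h' : G.Adj c z') : z = z' := by
  by_contra hne
  obtain ⟨L, h1, h2, v, hv, h3, h4, h5⟩ := between hc n a b z z' hab hz hz' hne
  refine no_two hG hv h1 (by omega) (c := c) (fun k hk h6 => hcU (h6 ▸ h5 k hk)) ?_ ?_
  · rw [h3]; exact h
  · rw [h4]; exact h'

open Classical in
/-- the members of `X` which are `c` or adjacent to `c` -/
noncomputable def nc (G : SimpleGraph V) (c : V) (X : Finset V) : Finset V :=
  X.filter (fun v => v = c ∨ G.Adj c v)

theorem nc_union (c : V) (X Y : Finset V) :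
    (nc G c (X ∪ Y)).card ≤ (nc G c X).card + (nc G c Y).card := by
  classical
  unfold nc
  rw [filter_union]
  exact card_union_le _ _

theorem nc_zero {c : V} {X : Finset V} (h : ∀ v ∈ X, v ≠ c ∧ ¬ G.Adj c v) :
    (nc G c X).card = 0 := by
  classical
  unfold nc
  rw [card_eq_zero, filter_eq_empty_iff]
  intro v hv hcon
  rcases hcon with h1 | h1
  · exact (h v hv).1 h1
  · exact (h v hv).2 h1

theorem nc_one {c : V} {X : Finset V} (h : ∀ z ∈ X, ∀ z' ∈ X, (z = c ∨ G.Adj c z) →
    (z' = c ∨ G.Adj c z') → z = z') : (nc G c X).card ≤ 1 := by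
  classical
  unfold nc
  rw [card_le_one]
  intro z hz z' hz'
  rw [mem_filter] at hz hz'
  exact h z hz.1 z' hz'.1 hz.2 hz'.2

theorem nc_single (c b : V) : (nc G c {b}).card ≤ 1 := by
  classical
  unfold nc
  exact (card_filter_le _ _).trans (by rw [card_singleton])

/-- the two children -/
theorem ch_ne (hc : Ch G ch) {a b : V} (hab : G.Adj a b) {j j' : Bool} (hj : j ≠ j') :
    ch a b j ≠ ch a b j' := by
  have := hc.two a b hab
  cases j <;> cases j' <;> first | exact absurd rfl hj | exact this | exact this.symm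

theorem not_root (hG : Good G) (hc : Ch G ch) {n : ℕ} (hn : n ≤ 5) {a b : V} (hab : G.Adj a b)
    : a ∉ U ch n a b := by
  intro h
  obtain ⟨i, hi, v, hv, h0, h1, h2, h3⟩ := down hc n a b a hab h
  exact ne_end hG hv 0 (i + 1) (by omega) le_rfl (by omega) (h0.trans h2.symm)

/-- a neighbour of the root in a branch is the child -/
theorem adj_child (hG : Good G) (hc : Ch G ch) {n : ℕ} (hn : n ≤ 5) {a b c : V}
    (hab : G.Adj a b) (h : c ∈ U ch n a b) (hac : G.Adj a c) : c = b := by
  obtain ⟨i, hi, v, hv, h0, h1, h2, h3⟩ := down hc n a b c hab h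
  rcases Nat.eq_zero_or_pos i with h4 | h4
  · rw [← h2, h4]
    exact h1
  · exfalso
    by_cases h5 : i + 1 ≤ 10
    · apply not_adj hG hv (by omega) h5
      rw [h0, h2]
      exact hac
    · omega

/-- different branches are far apart -/
theorem far (hG : Good G) (hc : Ch G ch) {n m : ℕ} (hnm : n + m ≤ 8) {b p q : V} (hp : G.Adj b p)
    (hq : G.Adj b q) (hpq : p ≠ q) {c z : V} (h : c ∈ U ch n b p) (h' : z ∈ U ch m b q) :
    z ≠ c ∧ ¬ G.Adj c z := by
  obtain ⟨i, hi, v, hv, h0, h1, h2, h3⟩ := down hc n b p c hp h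
  obtain ⟨i', hi', w, hw, k0, k1, k2, k3⟩ := down hc m b q z hq h'
  have h4 := fork_far hG hpq hv h0 h1 hw k0 k1 (by omega)
  rw [h2, k2] at h4
  exact ⟨h4.1.symm, h4.2⟩

theorem split_card (c a b : V) (n : ℕ) (j : Bool) : (nc G c (U ch (n + 1) a b)).card ≤
    (nc G c {b}).card + ((nc G c (U ch n b (ch a b j))).card +
      (nc G c (U ch n b (ch a b (!j)))).card) := by
  have h1 : U ch (n + 1) a b = {b} ∪ (U ch n b (ch a b j) ∪ U ch n b (ch a b (!j))) := by
    cases j
    · rfl
    · change insert b (U ch n b (ch a b false) ∪ U ch n b (ch a b true)) =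
        {b} ∪ (U ch n b (ch a b true) ∪ U ch n b (ch a b false))
      rw [union_comm (U ch n b (ch a b true))]
      rfl
  rw [h1]
  exact (nc_union _ _ _).trans (Nat.add_le_add_left (nc_union _ _ _) _)

theorem split5 (c a b : V) (j : Bool) : (nc G c (U ch 5 a b)).card ≤
    (nc G c {b}).card + ((nc G c (U ch 4 b (ch a b j))).card +
      (nc G c (U ch 4 b (ch a b (!j)))).card) := split_card c a b 4 j

theorem not_self (j : Bool) : j ≠ !j := by cases j <;> decide

/-- the number of neighbours inside a tree -/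
theorem inside (hG : Good G) (hc : Ch G ch) : ∀ n : ℕ, n ≤ 4 → ∀ a b c : V, G.Adj a b →
    c ∈ U ch n a b → (nc G c (U ch n a b)).card ≤ 4 ∧
      (c = b → (nc G c (U ch n a b)).card ≤ 3) ∧ (n = 0 → (nc G c (U ch n a b)).card ≤ 1) ∧
      (c ∉ U ch (n - 1) a b → (nc G c (U ch n a b)).card ≤ 2) := by
  intro n
  induction n with
  | zero =>
    intro _ a b c _ _
    have h := nc_single (G := G) c b
    change _ ∧ _
    have h' : (nc G c (U ch 0 a b)).card ≤ 1 := h
    exact ⟨by omega, fun _ => by omega, fun _ => by omega, fun _ => by omega⟩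
  | succ n ih =>
    intro hn a b c hab hcU
    by_cases hcb : c = b
    · subst hcb
      have h1 := split_card (G := G) (ch := ch) c a c n false
      have h2 := nc_single (G := G) c c
      have h3 : ∀ j, (nc G c (U ch n c (ch a c j))).card ≤ 1 := by
        intro j
        have hnm := not_root hG hc (n := n) (by omega) (hc.adj a c j hab)
        refine nc_one fun z hz z' hz' k k' => ?_
        have kz : G.Adj c z := k.resolve_left (fun h => hnm (h ▸ hz))
        have kz' : G.Adj c z' := k'.resolve_left (fun h => hnm (h ▸ hz'))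
        rw [adj_child hG hc (by omega) (hc.adj a c j hab) hz kz,
          adj_child hG hc (by omega) (hc.adj a c j hab) hz' kz']
      have h4 := h3 false
      have h5 := h3 (!false)
      refine ⟨by omega, fun _ => by omega, fun h => by omega, fun h => ?_⟩
      exact absurd (root_mem _ a c) h
    · obtain ⟨j, hj⟩ : ∃ j, c ∈ U ch n b (ch a b j) := (mem_succ hcU).resolve_left hcb
      have hbj := hc.adj a b j hab
      have hbj' := hc.adj a b (!j) hab
      have h1 := split_card (G := G) (ch := ch) c a b n j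
      have h2 : (nc G c (U ch n b (ch a b (!j)))).card = 0 :=
        nc_zero fun z hz => far hG hc (by omega) hbj hbj' (ch_ne hc hab (not_self j)) hj hz
      obtain ⟨k1, k2, k3, k4⟩ := ih (by omega) b (ch a b j) c hbj hj
      by_cases hcc : c = ch a b j
      · have h3 := nc_single (G := G) c b
        have h4 := k2 hcc
        refine ⟨by omega, fun h => absurd h hcb, fun h => by omega, fun h => ?_⟩
        rcases Nat.eq_zero_or_pos n with h5 | h5
        · have := k3 h5
          omega
        · exfalso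
          apply h
          obtain ⟨m, rfl⟩ : ∃ m, n = m + 1 := ⟨n - 1, by omega⟩
          rw [hcc]
          exact child_sub m a b j (root_mem m b _)
      · have h3 : (nc G c {b}).card = 0 := nc_zero fun v hv => by
          rw [mem_singleton.1 hv]
          exact ⟨fun h => hcb h.symm, fun h =>
            hcc (adj_child hG hc (by omega) hbj hj h.symm)⟩
        refine ⟨by omega, fun h => absurd h hcb, fun h => by omega, fun h => ?_⟩
        rcases Nat.eq_zero_or_pos n with h5 | h5
        · exfalso
          subst h5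
          exact hcc (mem_singleton.1 hj)
        · obtain ⟨m, rfl⟩ : ∃ m, n = m + 1 := ⟨n - 1, by omega⟩
          have := k4 (fun h6 => h (child_sub m a b j h6))
          omega

theorem disj (hG : Good G) (hc : Ch G ch) {x y z : V} (hxy : G.Adj x y) (h : z ∈ U ch 5 x y)
    (h' : z ∈ U ch 5 y x) : False := by
  obtain ⟨i, hi, v, hv, h0, h1, h2, h3⟩ := down hc 5 x y z hxy h
  obtain ⟨j, hj, w, hw, k0, k1, k2, k3⟩ := down hc 5 y x z hxy.symm h'
  have hv' : NB G.Adj i (fun k => v (k + 1)) :=
    ⟨fun k hk => hv.adj (k + 1) (by omega), fun k hk => hv.nb (k + 1) (by omega)⟩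
  refine join_ne (fun a => G.loopless.irrefl a) (fun a b h => h.symm) hG.g12 hv' hw
    (h1.trans k0.symm) (fun hi _ h => ?_) (by omega) (by omega) (h2.trans k2.symm)
  exact hv.nb 0 (by omega) (h0.trans (k1.symm.trans h.symm))

/-- a vertex outside the tree adjacent to `x` has no other neighbour in the tree -/
theorem out_root (hG : Good G) (hc : Ch G ch) {x y c z : V} (hxy : G.Adj x y)
    (h1 : c ∉ U ch 5 x y) (h2 : c ∉ U ch 5 y x) (hcx : G.Adj c x) (hcz : G.Adj c z)
    (hz : z ∈ U ch 5 x y ∪ U ch 5 y x) : z = x := by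
  by_contra hne
  rcases mem_union.1 hz with h | h
  · obtain ⟨i, hi, v, hv, k0, k1, k2, k3⟩ := down hc 5 x y z hxy h
    refine no_two hG hv (by omega) (by omega) (c := c) (fun k hk h6 => ?_) (by rw [k0]; exact hcx)
      (by rw [k2]; exact hcz)
    rcases Nat.eq_zero_or_pos k with h7 | h7
    · rw [h7, k0] at h6
      rw [h6] at hcx
      exact G.loopless.irrefl _ hcx
    · exact h1 (h6 ▸ k3 k h7 hk)
  · obtain ⟨j, hj⟩ := (mem_succ h).resolve_left hne
    obtain ⟨i, hi, v, hv, k0, k1, k2, k3⟩ :=
      down hc 4 x (ch y x j) z (hc.adj y x j hxy.symm) hj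
    refine no_two hG hv (by omega) (by omega) (c := c) (fun k hk h6 => ?_) (by rw [k0]; exact hcx)
      (by rw [k2]; exact hcz)
    rcases Nat.eq_zero_or_pos k with h7 | h7
    · rw [h7, k0] at h6
      rw [h6] at hcx
      exact G.loopless.irrefl _ hcx
    · exact h2 (child_sub 4 y x j (h6 ▸ k3 k h7 hk))

theorem branch_one (hG : Good G) (hc : Ch G ch) {a b c : V} (hab : G.Adj a b)
    (hcU : c ∉ U ch 4 a b) : (nc G c (U ch 4 a b)).card ≤ 1 :=
  nc_one fun z hz z' hz' k k' => single hG hc le_rfl hab hcU hz hz'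
    (k.resolve_left (fun h => hcU (h ▸ hz))) (k'.resolve_left (fun h => hcU (h ▸ hz')))

/-- a vertex on the side of `y` -/
theorem side (hG : Good G) (hc : Ch G ch) {x y c : V} (hxy : G.Adj x y) (h : c ∈ U ch 5 x y) :
    (nc G c (U ch 5 x y ∪ U ch 5 y x)).card ≤ 4 := by
  have hn := nc_union (G := G) c (U ch 5 x y) (U ch 5 y x)
  have hx := not_root hG hc (n := 5) le_rfl hxy
  have hcx : c ≠ x := fun h1 => hx (h1 ▸ h)
  have hdis : ∀ j, c ∉ U ch 4 x (ch y x j) := fun j h1 =>
    disj hG hc hxy h (child_sub 4 y x j h1)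
  have hs' := split5 (G := G) (ch := ch) c y x false
  by_cases hcy : c = y
  · subst hcy
    have h1 := split5 (G := G) (ch := ch) c x c false
    have h2 := nc_single (G := G) c c
    have h3 := nc_single (G := G) c x
    have h4 : ∀ j, (nc G c (U ch 4 c (ch x c j))).card ≤ 1 := fun j =>
      branch_one hG hc (hc.adj x c j hxy) (not_root hG hc (by omega) (hc.adj x c j hxy))
    have h5 : ∀ j, (nc G c (U ch 4 x (ch c x j))).card = 0 := by
      intro j
      refine nc_zero fun z hz => ⟨fun h6 => hdis j (h6 ▸ hz), fun h6 => ?_⟩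
      have h7 := adj_child hG hc (n := 5) le_rfl hxy.symm (child_sub 4 c x j hz) h6
      exact not_root hG hc (n := 4) (by omega) (hc.adj c x j hxy.symm) (h7 ▸ hz)
    have a1 := h4 false
    have a2 := h4 (!false)
    have a3 := h5 false
    have a4 := h5 (!false)
    omega
  · obtain ⟨j, hj⟩ := (mem_succ h).resolve_left hcy
    have hbj := hc.adj x y j hxy
    have hbj' := hc.adj x y (!j) hxy
    have h1 := split5 (G := G) (ch := ch) c x y j
    have h2 : (nc G c (U ch 4 y (ch x y (!j)))).card = 0 :=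
      nc_zero fun z hz => far hG hc (by omega) hbj hbj' (ch_ne hc hxy (not_self j)) hj hz
    obtain ⟨k1, k2, k3, k4⟩ := inside hG hc 4 le_rfl y (ch x y j) c hbj hj
    have hjx : ch x y j ≠ x := hc.ne x y j hxy
    by_cases hleaf : c ∈ U ch 3 y (ch x y j)
    · have h3 : (nc G c (U ch 5 y x)).card = 0 :=
        nc_zero fun z hz => far hG hc (by omega) hbj hxy.symm hjx hleaf hz
      by_cases hcc : c = ch x y j
      · have h4 := nc_single (G := G) c y
        have h5 := k2 hcc
        omega
      · have h4 : (nc G c {y}).card = 0 := nc_zero fun v hv => by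
          rw [mem_singleton.1 hv]
          exact ⟨fun h => hcy h.symm, fun h =>
            hcc (adj_child hG hc (by omega) hbj hj h.symm)⟩
        omega
    · have h5 := k4 hleaf
      have h4 : (nc G c {y}).card = 0 := nc_zero fun v hv => by
        rw [mem_singleton.1 hv]
        refine ⟨fun h => hcy h.symm, fun h => hleaf ?_⟩
        rw [adj_child hG hc (by omega) hbj hj h.symm]
        exact root_mem 3 y _
      have h6 : (nc G c {x}).card = 0 := nc_zero fun v hv => by
        rw [mem_singleton.1 hv]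
        exact far hG hc (n := 4) (m := 0) (by omega) hbj hxy.symm hjx hj (root_mem 0 y x)
      have h7 := branch_one hG hc (hc.adj y x false hxy.symm) (hdis false)
      have h8 := branch_one hG hc (hc.adj y x (!false) hxy.symm) (hdis (!false))
      omega

theorem at_most_four (hG : Good G) (hc : Ch G ch) {x y : V} (hxy : G.Adj x y) (c : V) :
    (nc G c (U ch 5 x y ∪ U ch 5 y x)).card ≤ 4 := by
  by_cases h1 : c ∈ U ch 5 x y
  · exact side hG hc hxy h1
  by_cases h2 : c ∈ U ch 5 y x
  · rw [union_comm]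
    exact side hG hc hxy.symm h2
  have hcT : c ∉ U ch 5 x y ∪ U ch 5 y x := fun h => (mem_union.1 h).elim h1 h2
  by_cases h3 : G.Adj c x
  · refine (nc_one fun z hz z' hz' k k' => ?_).trans (by norm_num)
    rw [out_root hG hc hxy h1 h2 h3 (k.resolve_left (fun h => hcT (h ▸ hz))) hz,
      out_root hG hc hxy h1 h2 h3 (k'.resolve_left (fun h => hcT (h ▸ hz'))) hz']
  by_cases h4 : G.Adj c y
  · rw [union_comm]
    have hcT' : c ∉ U ch 5 y x ∪ U ch 5 x y := fun h => (mem_union.1 h).elim h2 h1
    refine (nc_one fun z hz z' hz' k k' => ?_).trans (by norm_num)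
    rw [out_root hG hc hxy.symm h2 h1 h4 (k.resolve_left (fun h => hcT' (h ▸ hz))) hz,
      out_root hG hc hxy.symm h2 h1 h4 (k'.resolve_left (fun h => hcT' (h ▸ hz'))) hz']
  have hn := nc_union (G := G) c (U ch 5 x y) (U ch 5 y x)
  have s1 := split5 (G := G) (ch := ch) c x y false
  have s2 := split5 (G := G) (ch := ch) c y x false
  have e1 : (nc G c {y}).card = 0 := nc_zero fun v hv => by
    rw [mem_singleton.1 hv]
    exact ⟨fun h => h1 (h ▸ root_mem 5 x y), h4⟩
  have e2 : (nc G c {x}).card = 0 := nc_zero fun v hv => by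
    rw [mem_singleton.1 hv]
    exact ⟨fun h => h2 (h ▸ root_mem 5 y x), h3⟩
  have b1 : ∀ j, (nc G c (U ch 4 y (ch x y j))).card ≤ 1 := fun j =>
    branch_one hG hc (hc.adj x y j hxy) (fun h => h1 (child_sub 4 x y j h))
  have b2 : ∀ j, (nc G c (U ch 4 x (ch y x j))).card ≤ 1 := fun j =>
    branch_one hG hc (hc.adj y x j hxy.symm) (fun h => h2 (child_sub 4 y x j h))
  have a1 := b1 false
  have a2 := b1 (!false)
  have a3 := b2 false
  have a4 := b2 (!false)
  omega

theorem card_U (hG : Good G) (hc : Ch G ch) : ∀ n : ℕ, n ≤ 5 → ∀ a b : V, G.Adj a b →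
    2 ^ (n + 1) ≤ (U ch n a b).card + 1 := by
  intro n
  induction n with
  | zero =>
    intro _ a b _
    change 2 ^ 1 ≤ ({b} : Finset V).card + 1
    rw [card_singleton]
    norm_num
  | succ n ih =>
    intro hn a b hab
    have h0 := hc.adj a b false hab
    have h1 := hc.adj a b true hab
    have k0 := ih (by omega) b _ h0
    have k1 := ih (by omega) b _ h1
    have hd : Disjoint (U ch n b (ch a b false)) (U ch n b (ch a b true)) := by
      rw [disjoint_left]
      intro z hz hz'
      exact (far hG hc (by omega) h0 h1 (hc.two a b hab) hz hz').1 rfl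
    have hb : b ∉ U ch n b (ch a b false) ∪ U ch n b (ch a b true) := fun h =>
      (mem_union.1 h).elim (not_root hG hc (by omega) h0) (not_root hG hc (by omega) h1)
    change 2 ^ (n + 1 + 1) ≤ (insert b (U ch n b (ch a b false) ∪ U ch n b (ch a b true))).card + 1
    rw [card_insert_of_notMem hb, card_union_of_disjoint hd, pow_succ]
    omega

end tree

section
variable {V E : Type} [Fintype V] [DecidableEq V] [Fintype E] [DecidableEq E]

def ClD (src dst : E → V) : Prop := ∃ S D : Finset V, S.card + 4 * D.card ≤ 125 ∧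
  ∀ v, 3 ≤ dg src dst v → v ∈ S ∨ v ∈ D ∨ ∃ d ∈ D, Adj src dst d v

theorem ccD : CC (V := V) (E := E) ClD := by
  intro src dst e h hne
  obtain ⟨S, D, hSD, h⟩ := h
  set u := src e with hu
  set v := dst e with hv
  have c1 : (S.image (ctr u v)).card ≤ S.card := card_image_le
  have c2 : (D.image (ctr u v)).card ≤ D.card := card_image_le
  refine ⟨S.image (ctr u v), D.image (ctr u v), by omega, fun x h1 => ?_⟩
  have hxv : x ≠ v := by
    intro h
    rw [h, Ord.dg_ctr_v src dst hne] at h1
    omega
  obtain ⟨w, hw, hwd⟩ : ∃ w, ctr u v w = x ∧ 3 ≤ dg src dst w := by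
    by_cases hxu : x = u
    · rw [hxu] at h1 ⊢
      have h3 : dg (ctr u v ∘ src) (ctr u v ∘ dst) u + 2 ≤ dg src dst u + dg src dst v :=
        Ord.dg_ctr_u src dst e hne
      by_cases h4 : 3 ≤ dg src dst u
      · exact ⟨u, ctr_u _ _ hne, h4⟩
      · exact ⟨v, ctr_v _ _, by omega⟩
    · exact ⟨x, ctr_of_ne hxv, h1.trans (Ord.dg_ctr_other src dst hxu)⟩
  rw [← hw]
  rcases h w hwd with h2 | h2 | ⟨d, hd, h2⟩
  · exact Or.inl (mem_image_of_mem _ h2)
  · exact Or.inr (Or.inl (mem_image_of_mem _ h2))
  · by_cases h3 : ctr u v d = ctr u v w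
    · rw [← h3]
      exact Or.inr (Or.inl (mem_image_of_mem _ hd))
    · exact Or.inr (Or.inr ⟨ctr u v d, mem_image_of_mem _ hd, adj_ctr h2 h3⟩)

theorem flow_of_ClD (src dst : E → V) (hcl : ClD src dst) (hbr : Br src dst ∅ ∅) :
    FlowOn src dst ∅ ∅ := by
  classical
  refine frame ClD ccD ?_ src dst hcl hbr
  rintro s d ⟨S, D, hSD, h⟩ G hGA hG x y hxy
  obtain ⟨ch, hc⟩ := exists_ch hG
  have k1 := card_U hG hc 5 le_rfl x y hxy
  have k2 := card_U hG hc 5 le_rfl y x hxy.symm
  have hd : Disjoint (U ch 5 x y) (U ch 5 y x) := by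
    rw [disjoint_left]
    exact fun z h1 h2 => disj hG hc hxy h1 h2
  set T := U ch 5 x y ∪ U ch 5 y x with hT
  have hTc : 126 ≤ T.card := by
    rw [hT, card_union_of_disjoint hd]
    norm_num at k1 k2
    omega
  have hdeg : ∀ v ∈ T, 3 ≤ dg s d v := by
    intro v hv
    have h1 : ∃ w, G.Adj v w := by
      have key : ∀ a b, G.Adj a b → v ∈ U ch 5 a b → ∃ w, G.Adj v w := by
        intro a b hab h2
        obtain ⟨i, hi, p, hp, p0, p1, p2, p3⟩ := down hc 5 a b v hab h2
        have h3 := hp.adj i le_rfl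
        rw [p2] at h3
        exact ⟨_, h3.symm⟩
      rcases mem_union.1 hv with h2 | h2
      · exact key x y hxy h2
      · exact key y x hxy.symm h2
    obtain ⟨w, hw⟩ := h1
    exact Ord.three_dg (fun x y h => by
      obtain ⟨a, b, c, h1, h2, h3, h4⟩ := hG.h3 x y ((hGA x y).2 h)
      exact ⟨a, b, c, (hGA _ _).1 h1, (hGA _ _).1 h2, (hGA _ _).1 h3, h4⟩) ((hGA v w).1 hw)
  have hsub : T ⊆ S ∪ D.biUnion (fun c => nc G c T) := by
    intro v hv
    rw [mem_union, mem_biUnion]
    rcases h v (hdeg v hv) with h1 | h1 | ⟨c, hcD, h1⟩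
    · exact Or.inl h1
    · refine Or.inr ⟨v, h1, ?_⟩
      unfold nc
      exact mem_filter.2 ⟨hv, Or.inl rfl⟩
    · refine Or.inr ⟨c, hcD, ?_⟩
      unfold nc
      exact mem_filter.2 ⟨hv, Or.inr ((hGA _ _).2 h1)⟩
  have h1 := card_le_card hsub
  have h2 := card_union_le S (D.biUnion (fun c => nc G c T))
  have h3 : (D.biUnion (fun c => nc G c T)).card ≤ D.card * 4 :=
    card_biUnion_le_card_mul _ _ _ (fun c _ => at_most_four hG hc hxy c)
  omega

end

end Pool.Agent.Q287.FL.Dom
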