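import Pool.Agent.Q287.FL.Frame

/-! # Small pieces after the deletion of few vertices -/

set_option autoImplicit false
set_option linter.unusedSectionVars false

namespace Pool.Agent.Q287.FL.Frag

open Finset Pool.Agent.TH676.Z Pool.Agent.Y335.FL Pool.Agent.Y358.IN

section core
variable {V : Type} [DecidableEq V] {a : V → V → ℕ}

theorem core0 (ha : ∀ x y, a x y = a y x) (h0 : ∀ x, a x x = 0) :
    ∀ (n : ℕ) (X : Finset V), X.card = n + 1 → 2 * X.card ≤ IsoAux.Dg a X →
    ∃ Y ⊆ X, Y.Nonempty ∧ ∀ y ∈ Y, 2 ≤ ∑ z ∈ Y, a y z := by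
  intro n
  induction n with
  | zero =>
    intro X hX h
    obtain ⟨v, rfl⟩ := card_eq_one.1 hX
    simp [IsoAux.Dg, h0] at h
  | succ n ih =>
    intro X hX h
    by_cases hd : ∀ y ∈ X, 2 ≤ ∑ z ∈ X, a y z
    · exact ⟨X, Subset.refl X, card_pos.1 (by omega), hd⟩
    · push Not at hd
      obtain ⟨v, hv, hd⟩ := hd
      have h1 := IsoAux.Dg_erase ha h0 hv
      have h2 := Finset.card_erase_of_mem hv
      obtain ⟨Y, hY1, hY2, hY3⟩ := ih (X.erase v) (by omega) (by omega)
      exact ⟨Y, hY1.trans (Finset.erase_subset _ _), hY2, hY3⟩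

end core

/-- small sets span forests -/
theorem forest {V : Type} [Fintype V] [DecidableEq V] (G : SimpleGraph V) [DecidableRel G.Adj]
    (hg : Girth G.Adj 12) (U X : Finset V) (hX : X.card ≤ 11) (hne : X.Nonempty) :
    IsoAux.Dg (IsoAux.ai G U) X + 2 ≤ 2 * X.card := by
  by_contra hcon
  rw [not_le] at hcon
  have hc0 : 0 < X.card := hne.card_pos
  have ha0 : ∀ x, IsoAux.ai G U x x = 0 := by
    intro x
    unfold IsoAux.ai
    rw [if_neg fun h => G.loopless.irrefl x h.1]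
  have h2 := IsoAux.Dg_GY G U X
  obtain ⟨Y, hY1, hYn, hY2⟩ := core0 (ai_symm G U) ha0 (X.card - 1) X (by omega) (by omega)
  have hYc := card_le_card hY1
  haveI : Nonempty {x // x ∈ Y} := by
    obtain ⟨y, hy⟩ := hYn
    exact ⟨⟨y, hy⟩⟩
  have hYpos := hYn.card_pos
  have h1 := ahl {x // x ∈ Y} (IsoAux.GY G U Y) (fun v => by
    rw [IsoAux.deg_GY]
    exact hY2 v.1 v.2) (IsoAux.girth_GY G U Y hg)
  rw [Fintype.card_coe] at h1
  have h3 : 2 * Y.card ≤ 2 * (IsoAux.GY G U Y).edgeFinset.card := by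
    rw [← IsoAux.Dg_GY]
    unfold IsoAux.Dg
    rw [mul_comm, ← smul_eq_mul, ← sum_const]
    exact sum_le_sum fun v hv => hY2 v hv
  have hYr : (0 : ℝ) < Y.card := by exact_mod_cast hYpos
  have h4 : (2 : ℝ) ≤ 2 * ((IsoAux.GY G U Y).edgeFinset.card : ℝ) / Y.card := by
    rw [le_div_iff₀ hYr]
    exact_mod_cast h3
  have h5 : ∑ i ∈ range 6, (1 : ℝ) ^ i ≤ ∑ i ∈ range 6,
      (2 * ((IsoAux.GY G U Y).edgeFinset.card : ℝ) / Y.card - 1) ^ i :=
    sum_le_sum fun i _ => pow_le_pow_left₀ (by norm_num) (by linarith) i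
  have h6 : ∑ i ∈ range 6, (1 : ℝ) ^ i = 6 := by norm_num
  have h7 : (12 : ℝ) ≤ Y.card := by linarith
  have h8 : 12 ≤ Y.card := by exact_mod_cast h7
  omega

section cls
variable {V E : Type} [Fintype V] [DecidableEq V] [Fintype E] [DecidableEq E]

/-- connected: every proper part is left by an edge to the rest -/
def Conn (src dst : E → V) (X : Finset V) : Prop := ∀ Z ⊆ X, Z.Nonempty → Z ≠ X →
  ∃ e, (src e ∈ Z ∧ dst e ∈ X \ Z) ∨ (dst e ∈ Z ∧ src e ∈ X \ Z)

def ClF (t k : ℕ) (src dst : E → V) : Prop := ∃ S : Finset V, S.card ≤ k ∧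
  ∀ X : Finset V, Disjoint X S → Conn src dst X →
    (X.filter (fun v => 3 ≤ dg src dst v)).card ≤ t

theorem ctr_ne_v {u v : V} (huv : u ≠ v) (x : V) : ctr u v x ≠ v := by
  unfold ctr
  split_ifs with h
  · exact huv
  · exact h

theorem ccF (t k : ℕ) : CC (V := V) (E := E) (ClF t k) := by
  intro src dst e h hne
  obtain ⟨S, hS, h⟩ := h
  set u := src e with hu
  set v := dst e with hv
  refine ⟨S.image (ctr u v), card_image_le.trans hS, fun X' hdis hconn => ?_⟩
  by_cases hvX : v ∈ X'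
  · -- `X' = {v}`
    have h1 : X' = {v} := by
      by_contra hne'
      obtain ⟨g, hg | hg⟩ := hconn {v} (singleton_subset_iff.2 hvX) (singleton_nonempty _)
        (fun h => hne' h.symm)
      · exact ctr_ne_v hne _ (mem_singleton.1 hg.1)
      · exact ctr_ne_v hne _ (mem_singleton.1 hg.1)
    have h2 : X'.filter (fun w => 3 ≤ dg (ctr u v ∘ src) (ctr u v ∘ dst) w) = ∅ := by
      rw [filter_eq_empty_iff]
      intro w hw
      rw [h1, mem_singleton] at hw
      rw [hw, Ord.dg_ctr_v src dst hne]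
      omega
    rw [h2, card_empty]
    omega
  · set X := univ.filter (fun w => ctr u v w ∈ X') with hX
    have hmX : ∀ w, w ∈ X ↔ ctr u v w ∈ X' := fun w => by simp [hX]
    have h1 : Disjoint X S := by
      rw [disjoint_left]
      intro w hw hwS
      exact disjoint_left.1 hdis ((hmX w).1 hw) (mem_image_of_mem _ hwS)
    have h2 : Conn src dst X := by
      intro Z hZ hZn hZX
      by_cases hsat : ∀ w, w ∈ X → ctr u v w ∈ Z.image (ctr u v) → w ∈ Z
      · have k1 : Z.image (ctr u v) ⊆ X' := by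
          intro x hx
          obtain ⟨w, hw, rfl⟩ := mem_image.1 hx
          exact (hmX w).1 (hZ hw)
        have k2 : Z.image (ctr u v) ≠ X' := by
          intro h3
          apply hZX
          refine Subset.antisymm hZ fun w hw => hsat w hw ?_
          rw [h3]
          exact (hmX w).1 hw
        obtain ⟨g, hg⟩ := hconn _ k1 (hZn.image _) k2
        refine ⟨g, hg.imp ?_ ?_⟩
        · rintro ⟨a1, a2⟩
          rw [mem_sdiff] at a2
          refine ⟨hsat _ ((hmX _).2 (k1 a1)) a1, mem_sdiff.2 ⟨(hmX _).2 a2.1, fun a3 => ?_⟩⟩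
          exact a2.2 (mem_image_of_mem _ a3)
        · rintro ⟨a1, a2⟩
          rw [mem_sdiff] at a2
          refine ⟨hsat _ ((hmX _).2 (k1 a1)) a1, mem_sdiff.2 ⟨(hmX _).2 a2.1, fun a3 => ?_⟩⟩
          exact a2.2 (mem_image_of_mem _ a3)
      · push Not at hsat
        obtain ⟨w, hwX, hwi, hwZ⟩ := hsat
        obtain ⟨z, hz, hzw⟩ := mem_image.1 hwi
        have hzw' : z ≠ w := fun h => hwZ (h ▸ hz)
        -- `{z, w} = {u, v}`
        have key : (z = u ∧ w = v) ∨ (z = v ∧ w = u) := by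
          unfold ctr at hzw
          split_ifs at hzw with a1 a2 a2
          · exact absurd (a1.trans a2.symm) hzw'
          · exact Or.inr ⟨a1, hzw.symm⟩
          · exact Or.inl ⟨hzw, a2⟩
          · exact absurd hzw hzw'
        refine ⟨e, ?_⟩
        rcases key with ⟨a1, a2⟩ | ⟨a1, a2⟩
        · left
          rw [← hu, ← hv, ← a1, ← a2]
          exact ⟨hz, mem_sdiff.2 ⟨hwX, hwZ⟩⟩
        · right
          rw [← hu, ← hv, ← a1, ← a2]
          exact ⟨hz, mem_sdiff.2 ⟨hwX, hwZ⟩⟩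
    refine (card_le_card ?_).trans (card_image_le.trans (h X h1 h2)) (b := (image (ctr u v)
      (X.filter (fun v => 3 ≤ dg src dst v))).card)
    intro x hx
    obtain ⟨hxX, h1⟩ := mem_filter.1 hx
    have hxv : x ≠ v := fun h => hvX (h ▸ hxX)
    obtain ⟨w, hw, hwd⟩ : ∃ w, ctr u v w = x ∧ 3 ≤ dg src dst w := by
      by_cases hxu : x = u
      · rw [hxu] at h1 ⊢
        have h3 : dg (ctr u v ∘ src) (ctr u v ∘ dst) u + 2 ≤ dg src dst u + dg src dst v :=
          Ord.dg_ctr_u src dst e hne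
        by_cases h4 : 3 ≤ dg src dst u
        · exact ⟨u, ctr_u _ _ hne, h4⟩
        · exact ⟨v, ctr_v _ _, by omega⟩
      · exact ⟨x, ctr_of_ne hxv, h1.trans (Ord.dg_ctr_other src dst hxu)⟩
    exact mem_image.2 ⟨w, mem_filter.2 ⟨(hmX w).2 (by rw [hw]; exact hxX), hwd⟩, hw⟩

end cls

section fin

variable {V : Type} [Fintype V] [DecidableEq V]

/-- the graph outside `S` -/
def H (G : SimpleGraph V) (S : Finset V) : SimpleGraph V where
  Adj a b := G.Adj a b ∧ a ∉ S ∧ b ∉ S
  symm := ⟨fun _ _ h => ⟨h.1.symm, h.2.2, h.2.1⟩⟩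
  loopless := ⟨fun _ h => G.loopless.irrefl _ h.1⟩

open Classical in
/-- the component of `v` -/
noncomputable def C (G : SimpleGraph V) (S : Finset V) (v : V) : Finset V :=
  univ.filter (fun w => (H G S).Reachable v w)

theorem mem_C {G : SimpleGraph V} {S : Finset V} {v w : V} :
    w ∈ C G S v ↔ (H G S).Reachable v w := by
  unfold C
  simp

theorem C_nis {G : SimpleGraph V} {S : Finset V} {v w : V} (hw : w ∈ C G S v) :
    w = v ∨ (w ∉ S ∧ ∃ y, G.Adj w y) := by
  obtain ⟨p⟩ := mem_C.1 hw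
  by_cases hn : p.Nil
  · exact Or.inl hn.eq.symm
  · have h := (p.adj_penultimate hn).symm
    exact Or.inr ⟨h.2.1, _, h.1⟩

/-- **Counting.** -/
theorem count (G : SimpleGraph V) [DecidableRel G.Adj] (hG : Good G) (S : Finset V) (t k : ℕ)
    (ht1 : 1 ≤ t) (ht : t ≤ 11) (hk : k * (4 * t + 2) ≤ (126 - t) * (t + 2)) (hS : S.card ≤ k)
    (hC : ∀ v, v ∉ S → (∃ y, G.Adj v y) → (C G S v).card ≤ t) (x y : V) (hxy : G.Adj x y) :
    False := by
  classical
  have hk62 : k + t ≤ 125 := by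
    by_contra hcon
    have h1 : (126 - t) * (4 * t + 2) ≤ (126 - t) * (t + 2) :=
      le_trans (Nat.mul_le_mul_right _ (by omega)) hk
    have h2 := Nat.le_of_mul_le_mul_left h1 (by omega)
    omega
  set R : Finset V := univ.filter (fun v => v ∉ S ∧ ∃ y, G.Adj v y) with hR
  have hmR : ∀ v, v ∈ R ↔ v ∉ S ∧ ∃ y, G.Adj v y := fun v => by simp [hR]
  have hRc : 126 ≤ R.card + k := by
    have h1 := card_Po hG.h12 hG.h3 hxy
    have h2 : Po G x ∪ Po G y ⊆ R ∪ S := by
      intro v hv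
      by_cases hvS : v ∈ S
      · exact mem_union_right _ hvS
      · refine mem_union_left _ ((hmR v).2 ⟨hvS, ?_⟩)
        rcases mem_union.1 hv with h | h
        · obtain ⟨p, _, _, _⟩ := mem_Po.1 h
          exact Ord.nbr hxy p
        · obtain ⟨p, _, _, _⟩ := mem_Po.1 h
          exact Ord.nbr hxy.symm p
    have h3 := card_le_card h2
    have h4 := card_union_le R S
    omega
  have hCR : ∀ v ∈ R, C G S v ⊆ R := by
    intro v hv w hw
    rcases C_nis hw with h | h
    · rw [h]; exact hv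
    · exact (hmR w).2 h
  -- a maximal closed set with at most `125 - k` elements
  obtain ⟨W, hW, hWmax⟩ := Finset.exists_max_image
    (R.powerset.filter (fun W => (∀ v ∈ W, C G S v ⊆ W) ∧ W.card ≤ 125 - k)) (fun W => W.card)
    ⟨∅, mem_filter.2 ⟨mem_powerset.2 (empty_subset _), fun v hv => absurd hv (notMem_empty _),
      by simp⟩⟩
  rw [mem_filter, mem_powerset] at hW
  obtain ⟨hWR, hWcl, hWc⟩ := hW
  have hWlow : 126 ≤ W.card + k + t := by
    obtain ⟨v, hvR, hvW⟩ : ∃ v ∈ R, v ∉ W := by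
      by_contra hcon
      push Not at hcon
      have := card_le_card (show R ⊆ W from fun v hv => hcon v hv)
      omega
    have h1 : (W ∪ C G S v).card ≤ W.card + (C G S v).card := card_union_le _ _
    have h2 := hC v ((hmR v).1 hvR).1 ((hmR v).1 hvR).2
    by_contra hcon
    have h3 := hWmax (W ∪ C G S v) (mem_filter.2 ⟨mem_powerset.2
      (union_subset hWR (hCR v hvR)), ?_, by omega⟩)
    · have h4 : W ⊂ W ∪ C G S v := by
        refine ⟨subset_union_left, fun h => hvW (h (mem_union_right _ ?_))⟩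
        exact mem_C.2 (SimpleGraph.Reachable.refl _)
      have h5 := card_lt_card h4
      omega
    · intro w hw
      rcases mem_union.1 hw with h | h
      · exact (hWcl w h).trans subset_union_left
      · intro z hz
        exact mem_union_right _ (mem_C.2 ((mem_C.1 h).trans (mem_C.1 hz)))
  have hWS : ∀ v ∈ W, v ∉ S := fun v hv => ((hmR v).1 (hWR hv)).1
  have hWn : ∀ v ∈ W, ∀ z, G.Adj v z → z ∉ S → z ∈ W := by
    intro v hv z hz hzS
    refine hWcl v hv (mem_C.2 ?_)
    exact SimpleGraph.Adj.reachable (show (H G S).Adj v z from ⟨hz, hWS v hv, hzS⟩)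
  set N : Finset V := univ.filter (fun v => v ∈ S ∧ ∃ x ∈ W, G.Adj x v) with hN
  have hNS : N ⊆ S := fun v hv => (mem_filter.1 hv).2.1
  have hNc := (card_le_card hNS).trans hS
  have hdis : Disjoint W N := by
    rw [disjoint_left]
    exact fun v hv hvN => hWS v hv (hNS hvN)
  have hcu : (W ∪ N).card = W.card + N.card := card_union_of_disjoint hdis
  have hWpos : 0 < W.card := by omega
  have hsp := sparse G hG.g12 W (W ∪ N) (by omega) ((card_pos.1 hWpos).mono subset_union_left)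
  set a := IsoAux.ai G W with ha
  have has : ∀ x y, a x y = a y x := ai_symm G W
  set A := ∑ v ∈ W, ∑ y ∈ W, a v y with hA
  set B := ∑ v ∈ W, ∑ y ∈ N, a v y with hB
  have hDg : IsoAux.Dg a (W ∪ N) ≥ A + 2 * B := by
    unfold IsoAux.Dg
    rw [sum_union hdis]
    have h1 : ∑ v ∈ W, ∑ y ∈ W ∪ N, a v y = A + B := by
      rw [hA, hB, ← sum_add_distrib]
      exact sum_congr rfl fun v _ => sum_union hdis
    have h2 : B ≤ ∑ v ∈ N, ∑ y ∈ W ∪ N, a v y := by
      rw [hB, sum_comm]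
      refine sum_le_sum fun v _ => ?_
      rw [sum_congr rfl (fun y _ => has y v)]
      exact sum_le_sum_of_subset subset_union_left
    omega
  have hAB : 3 * W.card ≤ A + B := by
    have h1 : A + B = ∑ v ∈ W, ∑ y ∈ W ∪ N, a v y := by
      rw [hA, hB, ← sum_add_distrib]
      exact (sum_congr rfl fun v _ => sum_union hdis).symm
    rw [h1, mul_comm, ← smul_eq_mul, ← sum_const]
    refine sum_le_sum fun v hv => ?_
    obtain ⟨w, hw⟩ := ((hmR v).1 (hWR hv)).2
    obtain ⟨p, q, r, hp, hq, hr, hpq, hpr, hqr⟩ := hG.h3 v w hw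
    have h5 : ∀ z, G.Adj v z → a v z = 1 := by
      intro z hz
      rw [ha]
      unfold IsoAux.ai
      rw [if_pos ⟨hz, Or.inl hv⟩]
    have h6 : ∀ z, G.Adj v z → z ∈ W ∪ N := by
      intro z hz
      by_cases hzS : z ∈ S
      · exact mem_union_right _ (mem_filter.2 ⟨mem_univ _, hzS, v, hv, hz⟩)
      · exact mem_union_left _ (hWn v hv z hz hzS)
    have h4 : ({p, q, r} : Finset V) ⊆ W ∪ N := by
      intro z hz
      simp only [mem_insert, mem_singleton] at hz
      rcases hz with rfl | rfl | rfl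
      · exact h6 _ hp
      · exact h6 _ hq
      · exact h6 _ hr
    calc 3 = ∑ z ∈ ({p, q, r} : Finset V), a v z := by
          rw [sum_insert (by simp [hpq, hpr]), sum_pair hqr, h5 p hp, h5 q hq, h5 r hr]
          rfl
      _ ≤ _ := sum_le_sum_of_subset h4
  -- the components
  have hAle : t * A ≤ (2 * t - 2) * W.card := by
    set P := W.image (C G S) with hP
    have hself : ∀ v, v ∈ C G S v := fun v => mem_C.2 (SimpleGraph.Reachable.refl _)
    have hWP : W = P.biUnion id := by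
      ext v
      rw [mem_biUnion]
      constructor
      · intro hv
        exact ⟨C G S v, mem_image_of_mem _ hv, hself v⟩
      · rintro ⟨c, hc, hvc⟩
        obtain ⟨w, hw, rfl⟩ := mem_image.1 hc
        exact hWcl w hw hvc
    have hPd : ∀ c ∈ P, ∀ c' ∈ P, c ≠ c' → Disjoint (id c) (id c') := by
      intro c hc c' hc' hne
      obtain ⟨w, _, rfl⟩ := mem_image.1 hc
      obtain ⟨w', _, rfl⟩ := mem_image.1 hc'
      rw [disjoint_left]
      intro z hz hz'
      apply hne
      have h1 := mem_C.1 hz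
      have h2 := mem_C.1 hz'
      ext q
      rw [mem_C, mem_C]
      exact ⟨fun h => (h2.trans h1.symm).trans h, fun h => (h1.trans h2.symm).trans h⟩
    have hin : ∀ v ∈ W, ∑ y ∈ W, a v y = ∑ y ∈ C G S v, a v y := by
      intro v hv
      symm
      refine sum_subset (hWcl v hv) fun z hz hzC => ?_
      rw [ha]
      unfold IsoAux.ai
      rw [if_neg]
      rintro ⟨h1, _⟩
      exact hzC (mem_C.2 (SimpleGraph.Adj.reachable
        (show (H G S).Adj v z from ⟨h1, hWS v hv, hWS z hz⟩)))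
    have hA2 : A = ∑ c ∈ P, IsoAux.Dg a c := by
      rw [hA, sum_congr rfl hin]
      conv_lhs => rw [hWP]
      rw [sum_biUnion hPd]
      refine sum_congr rfl fun c hc => ?_
      obtain ⟨w, hw, rfl⟩ := mem_image.1 hc
      unfold IsoAux.Dg
      refine sum_congr rfl fun v hv => ?_
      have h1 := mem_C.1 (show v ∈ C G S w from hv)
      have h2 : C G S v = C G S w := by
        ext q
        rw [mem_C, mem_C]
        exact ⟨fun h => h1.trans h, fun h => h1.symm.trans h⟩
      rw [h2]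
    have hW2 : W.card = ∑ c ∈ P, c.card := by
      conv_lhs => rw [hWP]
      rw [card_biUnion hPd]
      rfl
    rw [hA2, hW2, mul_sum, mul_sum]
    refine sum_le_sum fun c hc => ?_
    obtain ⟨w, hw, rfl⟩ := mem_image.1 hc
    have h1 := hC w (hWS w hw) ((hmR w).1 (hWR hw)).2
    have h2 : IsoAux.Dg a (C G S w) + 2 ≤ 2 * (C G S w).card :=
      forest G hG.g12 W (C G S w) (by omega) ⟨w, hself w⟩
    obtain ⟨m, hm⟩ : ∃ m, (C G S w).card = m := ⟨_, rfl⟩
    rw [hm] at h1 h2 ⊢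
    have h3 : IsoAux.Dg a (C G S w) ≤ 2 * m - 2 := by omega
    have hm1 : 1 ≤ m := by
      rw [← hm]
      exact card_pos.2 ⟨w, hself w⟩
    calc t * IsoAux.Dg a (C G S w) ≤ t * (2 * m - 2) := Nat.mul_le_mul_left _ h3
      _ ≤ (2 * t - 2) * m := by
          obtain ⟨m', rfl⟩ : ∃ m', m = m' + 1 := ⟨m - 1, by omega⟩
          obtain ⟨t', rfl⟩ : ∃ t', t = t' + 1 := ⟨t - 1, by omega⟩
          rw [show 2 * (m' + 1) - 2 = 2 * m' by omega, show 2 * (t' + 1) - 2 = 2 * t' by omega]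
          nlinarith
  -- conclusion
  obtain ⟨w, hw⟩ : ∃ w, W.card = w := ⟨_, rfl⟩
  obtain ⟨n, hn⟩ : ∃ n, N.card = n := ⟨_, rfl⟩
  obtain ⟨t', rfl⟩ : ∃ t', t = t' + 1 := ⟨t - 1, by omega⟩
  rw [hcu, hw, hn] at hsp
  rw [hw] at hAB hAle hWlow
  rw [hn] at hNc
  rw [show 2 * (t' + 1) - 2 = 2 * t' by omega] at hAle
  have h1 : 6 * w ≤ (A + 2 * B) + A := by omega
  have h2 : A + 2 * B < 3 * (w + n) := by omega
  have h3 : (t' + 1) * (6 * w) < (t' + 1) * (3 * (w + n)) + 2 * t' * w := by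
    have h4 : (t' + 1) * (6 * w) ≤ (t' + 1) * (A + 2 * B) + (t' + 1) * A := by
      rw [← mul_add]
      exact Nat.mul_le_mul_left _ h1
    have h5 : (t' + 1) * (A + 2 * B) < (t' + 1) * (3 * (w + n)) :=
      Nat.mul_lt_mul_of_pos_left h2 (by omega)
    omega
  have h4 : (126 - (t' + 1)) ≤ w + k := by omega
  have h5 : (126 - (t' + 1)) * (t' + 1 + 2) ≤ (w + k) * (t' + 1 + 2) :=
    Nat.mul_le_mul_right _ h4
  have h6 : (t' + 1) * n ≤ (t' + 1) * k := Nat.mul_le_mul_left _ hNc
  nlinarith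

end fin

theorem flow_of_ClF {V E : Type} [Fintype V] [DecidableEq V] [Fintype E] [DecidableEq E]
    (t k : ℕ) (ht1 : 1 ≤ t) (ht : t ≤ 11) (hk : k * (4 * t + 2) ≤ (126 - t) * (t + 2))
    (src dst : E → V) (hcl : ClF t k src dst) (hbr : Br src dst ∅ ∅) : FlowOn src dst ∅ ∅ := by
  classical
  refine frame (ClF t k) (ccF t k) ?_ src dst hcl hbr
  rintro s d ⟨S, hS, h⟩ G hGA hG x y hxy
  refine count G hG S t k ht1 ht hk hS (fun v hvS hv => ?_) x y hxy
  have hnis : ∀ w ∈ C G S v, w ∉ S ∧ ∃ y, G.Adj w y := by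
    intro w hw
    rcases C_nis hw with h1 | h1
    · rw [h1]; exact ⟨hvS, hv⟩
    · exact h1
  have h1 := h (C G S v) (by
    rw [disjoint_left]
    exact fun w hw => (hnis w hw).1) (by
    intro Z hZ hZn hZX
    obtain ⟨z, hz⟩ := hZn
    obtain ⟨w, hw, hwZ⟩ : ∃ w ∈ C G S v, w ∉ Z := by
      by_contra hcon
      push Not at hcon
      exact hZX (Subset.antisymm hZ hcon)
    obtain ⟨p⟩ := (mem_C.1 (hZ hz)).symm.trans (mem_C.1 hw)
    obtain ⟨d', hd', k1, k2⟩ := p.exists_boundary_dart (Z : Set V) hz hwZ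
    have k3 := d'.adj
    have k4 : d'.snd ∈ C G S v := mem_C.2 ((mem_C.1 (hZ (by exact_mod_cast k1))).trans
      (SimpleGraph.Adj.reachable k3))
    obtain ⟨_, e, he⟩ := (hGA _ _).1 k3.1
    have k1' : d'.fst ∈ Z := by exact_mod_cast k1
    have k2' : d'.snd ∉ Z := by exact_mod_cast k2
    refine ⟨e, ?_⟩
    rcases he with ⟨e1, e2⟩ | ⟨e1, e2⟩
    · left
      rw [e1, e2]
      exact ⟨k1', mem_sdiff.2 ⟨k4, k2'⟩⟩
    · right
      rw [e1, e2]
      exact ⟨k1', mem_sdiff.2 ⟨k4, k2'⟩⟩)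
  have h2 : (C G S v).filter (fun w => 3 ≤ dg s d w) = C G S v := by
    refine filter_true_of_mem fun w hw => ?_
    obtain ⟨z, hz⟩ := (hnis w hw).2
    exact Ord.three_dg (fun x y h => by
      obtain ⟨a, b, c, h1, h2, h3, h4⟩ := hG.h3 x y ((hGA x y).2 h)
      exact ⟨a, b, c, (hGA _ _).1 h1, (hGA _ _).1 h2, (hGA _ _).1 h3, h4⟩) ((hGA w z).1 hz)
  rwa [h2] at h1

end Pool.Agent.Q287.FL.Frag
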