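import Pool.Agent.Y335.FL.Main
import Pool.Agent.Y335.FL.Order
import Pool.Agent.Y335.FL.Iso
import Pool.Agent.Y335.FL.Ahl
import Pool.Agent.Y358.IN.Ind2

/-!
# Classes closed under contractions, sparse subgraphs

A class of graphs closed under contractions contains no counterexample to the 5-flow conjecture if
it contains no graph with girth at least twelve and degrees at least three.  In a graph with girth
at least twelve every set of at most 125 vertices spans fewer than `3/2` edges per vertex.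
-/

set_option autoImplicit false
set_option linter.unusedSectionVars false

namespace Pool.Agent.Q287.FL

open Finset Pool.Agent.TH676.Z Pool.Agent.Y335.FL Pool.Agent.Y358.IN

/-- girth twelve and minimum degree three -/
structure Good {V : Type} (G : SimpleGraph V) : Prop where
  h12 : ∀ (w : V) (c : G.Walk w w), c.IsCycle → 12 ≤ c.length
  h3 : ∀ x y, G.Adj x y → ∃ a b c, G.Adj x a ∧ G.Adj x b ∧ G.Adj x c ∧ a ≠ b ∧ a ≠ c ∧ b ≠ c
  g12 : Girth G.Adj 12

theorem frame {V E : Type} [Fintype V] [DecidableEq V] [Fintype E] [DecidableEq E]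
    (Cl : (E → V) → (E → V) → Prop) (hCl : CC Cl)
    (hfin : ∀ s d : E → V, Cl s d → ∀ G : SimpleGraph V, (∀ a b, G.Adj a b ↔ Adj s d a b) →
      Good G → ∀ x y, G.Adj x y → False)
    (src dst : E → V) (hcl : Cl src dst) (hbr : Br src dst ∅ ∅) : FlowOn src dst ∅ ∅ := by
  classical
  by_contra hn
  obtain ⟨s, d, hS, hM⟩ := exists_minC hCl src dst hcl hbr hn
  have h3 := threeC contract_all hM
  have hgi := girthC contract_all hM
  by_cases hl : ∀ e, s e = d e
  · exact hM.nf (flow_of_loops hl)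
  push Not at hl
  obtain ⟨e, he⟩ := hl
  let G : SimpleGraph V :=
    { Adj := Adj s d
      symm := ⟨fun a b h => GiAux.adj_symm h⟩
      loopless := ⟨fun a h => h.1 rfl⟩ }
  have hG : ∀ a b, G.Adj a b ↔ Adj s d a b := fun a b => Iff.rfl
  have h12 : ∀ (w : V) (c : G.Walk w w), c.IsCycle → 12 ≤ c.length :=
    fun w c hc => Ord.cycle_len hgi G hG c hc
  exact hfin s d hS G hG ⟨h12, fun x y h => h3 x y h, hgi⟩ (s e) (d e)
    ⟨he, e, Or.inl ⟨rfl, rfl⟩⟩

section
variable {V : Type} [DecidableEq V] {a : V → V → ℕ}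

theorem core1 (ha : ∀ x y, a x y = a y x) (h0 : ∀ x, a x x = 0) :
    ∀ (n : ℕ) (X : Finset V), X.card = n → 2 * X.card + 1 ≤ IsoAux.Dg a X →
    ∃ Y ⊆ X, (∀ y ∈ Y, 2 ≤ ∑ z ∈ Y, a y z) ∧
      IsoAux.Dg a X + 2 * Y.card ≤ IsoAux.Dg a Y + 2 * X.card := by
  intro n
  induction n with
  | zero =>
    intro X hX h
    rw [Finset.card_eq_zero] at hX
    subst hX
    simp [IsoAux.Dg] at h
  | succ n ih =>
    intro X hX h
    by_cases hd : ∀ y ∈ X, 2 ≤ ∑ z ∈ X, a y z
    · exact ⟨X, Subset.refl X, hd, le_rfl⟩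
    · push Not at hd
      obtain ⟨v, hv, hd⟩ := hd
      have h1 := IsoAux.Dg_erase ha h0 hv
      have h2 := Finset.card_erase_of_mem hv
      obtain ⟨Y, hY1, hY2, hY3⟩ := ih (X.erase v) (by omega) (by omega)
      exact ⟨Y, hY1.trans (Finset.erase_subset _ _), hY2, by omega⟩

end

theorem ai_symm {V : Type} [DecidableEq V] (G : SimpleGraph V) [DecidableRel G.Adj]
    (U : Finset V) (x y : V) : IsoAux.ai G U x y = IsoAux.ai G U y x := by
  unfold IsoAux.ai
  exact if_congr (and_congr (G.adj_comm x y) or_comm) rfl rfl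

theorem sparse {V : Type} [Fintype V] [DecidableEq V] (G : SimpleGraph V) [DecidableRel G.Adj]
    (hg : Girth G.Adj 12) (U X : Finset V) (hX : X.card ≤ 125) (hne : X.Nonempty) :
    IsoAux.Dg (IsoAux.ai G U) X < 3 * X.card := by
  by_contra hcon
  rw [not_lt] at hcon
  have hc0 : 0 < X.card := hne.card_pos
  have ha0 : ∀ x, IsoAux.ai G U x x = 0 := by
    intro x
    unfold IsoAux.ai
    rw [if_neg fun h => G.loopless.irrefl x h.1]
  obtain ⟨Y, hY1, hY2, hY3⟩ := core1 (ai_symm G U) ha0 X.card X rfl (by omega)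
  have hYc := card_le_card hY1
  have hYpos : 0 < Y.card := by
    by_contra h0
    have h1 : Y = ∅ := by
      rw [← card_eq_zero]
      omega
    rw [h1] at hY3
    simp only [IsoAux.Dg, sum_empty, card_empty] at hY3
    unfold IsoAux.Dg at hcon
    omega
  haveI : Nonempty {x // x ∈ Y} := by
    obtain ⟨y, hy⟩ := card_pos.1 hYpos
    exact ⟨⟨y, hy⟩⟩
  have h1 := ahl {x // x ∈ Y} (IsoAux.GY G U Y) (fun v => by
    rw [IsoAux.deg_GY]
    exact hY2 v.1 v.2) (IsoAux.girth_GY G U Y hg)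
  rw [Fintype.card_coe] at h1
  have h2 := IsoAux.Dg_GY G U Y
  have h3 : 3 * Y.card ≤ 2 * (IsoAux.GY G U Y).edgeFinset.card := by omega
  have hYr : (0 : ℝ) < Y.card := by exact_mod_cast hYpos
  have h4 : (3 : ℝ) ≤ 2 * ((IsoAux.GY G U Y).edgeFinset.card : ℝ) / Y.card := by
    rw [le_div_iff₀ hYr]
    exact_mod_cast h3
  have h5 : ∑ i ∈ range 6, (2 : ℝ) ^ i ≤ ∑ i ∈ range 6,
      (2 * ((IsoAux.GY G U Y).edgeFinset.card : ℝ) / Y.card - 1) ^ i :=
    sum_le_sum fun i _ => pow_le_pow_left₀ (by norm_num) (by linarith) i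
  have h6 : ∑ i ∈ range 6, (2 : ℝ) ^ i = 63 := by norm_num [Finset.sum_range_succ]
  have h7 : (126 : ℝ) ≤ Y.card := by linarith
  have h8 : 126 ≤ Y.card := by exact_mod_cast h7
  omega

/-- the sum over the pairs in two disjoint sets -/
theorem dg_union {V : Type} [DecidableEq V] (a : V → V → ℕ) (ha : ∀ x y, a x y = a y x)
    (Y N : Finset V) (hd : Disjoint Y N) :
    2 * ∑ v ∈ Y, ∑ y ∈ N, a v y ≤ IsoAux.Dg a (Y ∪ N) := by
  unfold IsoAux.Dg
  rw [sum_union hd]
  have h1 : ∑ v ∈ Y, ∑ y ∈ N, a v y ≤ ∑ v ∈ Y, ∑ y ∈ Y ∪ N, a v y :=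
    sum_le_sum fun v _ => sum_le_sum_of_subset subset_union_right
  have h2 : ∑ v ∈ Y, ∑ y ∈ N, a v y ≤ ∑ v ∈ N, ∑ y ∈ Y ∪ N, a v y := by
    rw [sum_comm]
    refine sum_le_sum fun v _ => ?_
    rw [sum_congr rfl (fun y _ => ha y v)]
    exact sum_le_sum_of_subset subset_union_left
  omega

end Pool.Agent.Q287.FL
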