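import Pool.Agent.Q287.FL.Frame
import Mathlib.Combinatorics.Hall.Basic

/-! # No 63 disjoint edges -/

set_option autoImplicit false
set_option linter.unusedSectionVars false

namespace Pool.Agent.Q287.FL

open Finset Pool.Agent.TH676.Z Pool.Agent.Y335.FL Pool.Agent.Y358.IN

section
variable {V E : Type} [Fintype V] [DecidableEq V] [Fintype E] [DecidableEq E]

/-- the proper edges of `M` are pairwise disjoint -/
def IsM (src dst : E → V) (M : Finset E) : Prop := (∀ e ∈ M, src e ≠ dst e) ∧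
  ∀ e ∈ M, ∀ e' ∈ M, e ≠ e' → src e ≠ src e' ∧ src e ≠ dst e' ∧ dst e ≠ src e' ∧ dst e ≠ dst e'

def ClM (src dst : E → V) : Prop := ∀ M : Finset E, IsM src dst M → M.card ≤ 62

theorem ccM : CC (V := V) (E := E) ClM := by
  intro src dst e h hne M hM
  refine h M ⟨fun g hg heq => hM.1 g hg (congrArg (ctr (src e) (dst e)) heq),
    fun g hg g' hg' hn => ?_⟩
  obtain ⟨a, b, c, d⟩ := hM.2 g hg g' hg' hn
  exact ⟨fun h => a (congrArg (ctr (src e) (dst e)) h),
    fun h => b (congrArg (ctr (src e) (dst e)) h), fun h => c (congrArg (ctr (src e) (dst e)) h),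
    fun h => d (congrArg (ctr (src e) (dst e)) h)⟩

end

/-- an independent set with at most 63 elements can be matched -/
theorem hall {V : Type} [Fintype V] [DecidableEq V] (G : SimpleGraph V) [DecidableRel G.Adj]
    (hG : Good G) (X : Finset V) (hX : X.card ≤ 63) (hind : ∀ x ∈ X, ∀ y ∈ X, ¬ G.Adj x y)
    (hn : ∀ x ∈ X, ∃ y, G.Adj x y) :
    ∃ f : {x // x ∈ X} → V, Function.Injective f ∧ ∀ x, G.Adj x.1 (f x) := by
  classical
  have key : ∀ A : Finset {x // x ∈ X}, A.card ≤ (A.biUnion (fun x => G.neighborFinset x.1)).card := by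
    intro A
    rcases A.eq_empty_or_nonempty with rfl | hA
    · simp
    by_contra hcon
    rw [not_le] at hcon
    set N := A.biUnion (fun x => G.neighborFinset x.1) with hN
    set Y := A.image Subtype.val with hY
    have hYc : Y.card = A.card := card_image_of_injective _ Subtype.val_injective
    have hYX : Y ⊆ X := by
      intro y hy
      obtain ⟨x, _, rfl⟩ := mem_image.1 hy
      exact x.2
    have hYN : ∀ y ∈ Y, ∀ z, G.Adj y z → z ∈ N := by
      intro y hy z hz
      obtain ⟨x, hx, rfl⟩ := mem_image.1 hy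
      exact mem_biUnion.2 ⟨x, hx, (G.mem_neighborFinset _ _).2 hz⟩
    have hdis : Disjoint Y N := by
      rw [disjoint_left]
      intro y hy hyN
      obtain ⟨x, hx, h1⟩ := mem_biUnion.1 hyN
      exact hind x.1 x.2 y (hYX hy) ((G.mem_neighborFinset _ _).1 h1)
    have hcY := card_le_card hYX
    have hcu : (Y ∪ N).card = Y.card + N.card := card_union_of_disjoint hdis
    have hne : (Y ∪ N).Nonempty := by
      obtain ⟨x, hx⟩ := hA
      exact ⟨x.1, mem_union_left _ (mem_image_of_mem _ hx)⟩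
    have h1 := sparse G hG.g12 Y (Y ∪ N) (by omega) hne
    have h2 := dg_union (IsoAux.ai G Y) (ai_symm G Y) Y N hdis
    have h3 : 3 * Y.card ≤ ∑ v ∈ Y, ∑ y ∈ N, IsoAux.ai G Y v y := by
      rw [mul_comm, ← smul_eq_mul, ← sum_const]
      refine sum_le_sum fun v hv => ?_
      obtain ⟨w, hw⟩ := hn v (hYX hv)
      obtain ⟨a, b, c, ha, hb, hc, hab, hac, hbc⟩ := hG.h3 v w hw
      have h5 : ∀ z, G.Adj v z → IsoAux.ai G Y v z = 1 := by
        intro z hz
        unfold IsoAux.ai
        rw [if_pos ⟨hz, Or.inl hv⟩]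
      have h4 : ({a, b, c} : Finset V) ⊆ N := by
        intro z hz
        simp only [mem_insert, mem_singleton] at hz
        rcases hz with rfl | rfl | rfl
        · exact hYN v hv _ ha
        · exact hYN v hv _ hb
        · exact hYN v hv _ hc
      calc 3 = ∑ z ∈ ({a, b, c} : Finset V), IsoAux.ai G Y v z := by
            rw [sum_insert (by simp [hab, hac]), sum_pair hbc, h5 a ha, h5 b hb, h5 c hc]
            rfl
        _ ≤ _ := sum_le_sum_of_subset h4
    omega
  obtain ⟨f, hf1, hf2⟩ := (Finset.all_card_le_biUnion_card_iff_exists_injective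
    (fun x : {x // x ∈ X} => G.neighborFinset x.1)).1 key
  exact ⟨f, hf1, fun x => (G.mem_neighborFinset _ _).1 (hf2 x)⟩

theorem flow_of_ClM {V E : Type} [Fintype V] [DecidableEq V] [Fintype E] [DecidableEq E]
    (src dst : E → V) (hcl : ClM src dst) (hbr : Br src dst ∅ ∅) : FlowOn src dst ∅ ∅ := by
  classical
  refine frame ClM ccM ?_ src dst hcl hbr
  intro s d hS G hGA hG x y hxy
  have hcard := card_Po hG.h12 hG.h3 hxy
  have h63 : ∃ x y, G.Adj x y ∧ 63 ≤ (Po G x).card := by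
    by_contra hcon
    push Not at hcon
    have k1 := hcon x y hxy
    have k2 := hcon y x hxy.symm
    have k3 := card_union_le (Po G x) (Po G y)
    omega
  obtain ⟨x, y, hxy, h63⟩ := h63
  obtain ⟨X, hXP, hXc⟩ := exists_subset_card_eq h63
  have hind : ∀ u ∈ X, ∀ w ∈ X, ¬ G.Adj u w :=
    fun u hu w hw => Po_indep hG.h12 x u (hXP hu) w (hXP hw)
  obtain ⟨f, hf1, hf2⟩ := hall G hG X hXc.le hind (fun v hv => by
    obtain ⟨p, _, _, _⟩ := mem_Po.1 (hXP hv)
    exact Ord.nbr hxy p)
  have hed : ∀ v : {x // x ∈ X}, ∃ e, (s e = v.1 ∧ d e = f v) ∨ (s e = f v ∧ d e = v.1) :=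
    fun v => ((hGA _ _).1 (hf2 v)).2
  choose ed hed using hed
  have hdis : ∀ v w : {x // x ∈ X}, v ≠ w → v.1 ≠ w.1 ∧ v.1 ≠ f w ∧ f v ≠ w.1 ∧ f v ≠ f w := by
    intro v w hvw
    refine ⟨fun h => hvw (Subtype.ext h), fun h => ?_, fun h => ?_, fun h => hvw (hf1 h)⟩
    · have h1 := hf2 w
      rw [← h] at h1
      exact hind w.1 w.2 v.1 v.2 h1
    · have h1 := hf2 v
      rw [h] at h1
      exact hind v.1 v.2 w.1 w.2 h1
  have hinj : Function.Injective ed := by
    intro v w hvw
    by_contra hne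
    obtain ⟨a, b, c, e⟩ := hdis v w hne
    have h1 := hed v
    have h2 := hed w
    rw [← hvw] at h2
    rcases h1 with ⟨p, _⟩ | ⟨p, _⟩ <;> rcases h2 with ⟨q, _⟩ | ⟨q, _⟩
    · exact a (p.symm.trans q)
    · exact b (p.symm.trans q)
    · exact c (p.symm.trans q)
    · exact e (p.symm.trans q)
  have h1 := hS (univ.image ed) ⟨?_, ?_⟩
  · rw [card_image_of_injective _ hinj, card_univ, Fintype.card_coe, hXc] at h1
    omega
  · intro e he
    obtain ⟨v, _, rfl⟩ := mem_image.1 he
    have h2 := (hf2 v).ne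
    rcases hed v with ⟨p, q⟩ | ⟨p, q⟩
    · rw [p, q]; exact h2
    · rw [p, q]; exact h2.symm
  · intro e he e' he' hne
    obtain ⟨v, _, rfl⟩ := mem_image.1 he
    obtain ⟨w, _, rfl⟩ := mem_image.1 he'
    have hvw : v ≠ w := fun h => hne (by rw [h])
    obtain ⟨a, b, c, e⟩ := hdis v w hvw
    rcases hed v with ⟨p, q⟩ | ⟨p, q⟩ <;> rcases hed w with ⟨p', q'⟩ | ⟨p', q'⟩ <;>
      rw [p, q, p', q'] <;> tauto

end Pool.Agent.Q287.FL
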