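import Pool.Agent.TH362.FF.Fam
import Pool.Agent.Y335.FL.Main
import Pool.Agent.Y335.FL.Order

/-!
# Few vertices of odd degree, few edge cuts of size three

A minimal counterexample to the 5-flow statement among the graphs with at most `K` vertices of odd
degree is cubic (library `TH362/FF`) and has girth at least twelve (library `Y335/FL`), so it has at
least 126 vertices.
-/

set_option autoImplicit false
set_option linter.unusedSectionVars false

namespace Pool.Agent.Q287.FL

open Finset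

variable {V E : Type} [Fintype V] [DecidableEq V] [Fintype E] [DecidableEq E]

theorem nz5_of_flowOn {s t : E → V} {S : Finset E}
    (h : Pool.Agent.TH676.Z.FlowOn s t Sᶜ ∅) : Pool.Agent.TH362.FF.NZ5 s t S := by
  obtain ⟨f, h1, h2, h3⟩ := h
  refine ⟨f, fun e he => h3 e (by simpa using he) (notMem_empty _), fun v => ?_⟩
  rw [← h1 v]
  unfold Pool.Agent.TH362.FF.bd Pool.Agent.TH676.Z.bd
  refine sum_subset (subset_univ _) fun e _ he => ?_
  have := h2 e (by simpa using he)
  simp [this]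

/-- one edge is contracted -/
theorem crit {s t : E → V} {S : Finset E} (h : Pool.Agent.TH362.FF.MinR s t S) {e : E}
    (he : e ∈ S) : Pool.Agent.TH676.Z.FlowOn s t Sᶜ {e} := by
  have hne := h.noloop e he
  obtain ⟨φ, hφ1, hφ2⟩ := h.ih (Pool.Agent.TH676.Z.ctr (s e) (t e)) (S.erase e)
    (erase_subset _ _) (by
      intro g hg hn
      have hg' : g = e := by
        by_contra hh
        exact hn (mem_erase.2 ⟨hh, hg⟩)
      rw [hg']
      unfold Pool.Agent.TH676.Z.ctr
      rw [if_neg hne, if_pos rfl]) (card_erase_lt_of_mem he)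
  set f0 : E → ZMod 5 := fun x => if x ∈ S.erase e then φ x else 0 with hf0
  have hb0 : ∀ x, Pool.Agent.TH676.Z.bd (Pool.Agent.TH676.Z.ctr (s e) (t e) ∘ s)
      (Pool.Agent.TH676.Z.ctr (s e) (t e) ∘ t) f0 x = 0 := by
    intro x
    rw [← hφ2 x]
    unfold Pool.Agent.TH362.FF.bd Pool.Agent.TH676.Z.bd
    rw [← sum_subset (subset_univ (S.erase e))]
    · refine sum_congr rfl fun g hg => ?_
      simp only [hf0, if_pos hg, Function.comp]
    · intro g _ hg
      simp only [hf0, if_neg hg, ite_self, sub_self]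
  have hb : ∀ x, x ≠ s e → x ≠ t e → Pool.Agent.TH676.Z.bd s t f0 x = 0 := by
    intro x h1 h2
    have h3 := hb0 x
    rw [Pool.Agent.TH676.Z.Crit.bd_ctr s t _ _ hne, if_neg h2, if_neg h1] at h3
    exact h3
  have hb2 : Pool.Agent.TH676.Z.bd s t f0 (s e) + Pool.Agent.TH676.Z.bd s t f0 (t e) = 0 := by
    have h3 := hb0 (s e)
    rw [Pool.Agent.TH676.Z.Crit.bd_ctr s t _ _ hne, if_neg hne, if_pos rfl] at h3
    exact h3
  refine ⟨f0 + Pi.single e (Pool.Agent.TH676.Z.bd s t f0 (t e)), fun v => ?_, fun x hx => ?_,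
    fun x h1 h2 => ?_⟩
  · rw [Pool.Agent.TH676.Z.Crit.bd_add, Pool.Agent.TH676.Z.Crit.bd_single]
    by_cases h1 : s e = v
    · have h2 : t e ≠ v := fun h => hne (h1.trans h.symm)
      rw [if_pos h1, if_neg h2, sub_zero, ← h1, hb2]
    · by_cases h2 : t e = v
      · rw [if_neg h1, if_pos h2, zero_sub, ← h2, add_neg_cancel]
      · rw [if_neg h1, if_neg h2, hb v (Ne.symm h1) (Ne.symm h2)]; simp
  · have hxS : x ∉ S := by simpa using hx
    have h3 : x ≠ e := fun h => hxS (h ▸ he)
    rw [Pi.add_apply, Pi.single_eq_of_ne h3, add_zero, hf0]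
    simp only
    rw [if_neg (fun h => hxS (mem_of_mem_erase h))]
  · have hxS : x ∈ S := by simpa using h1
    have h3 : x ≠ e := fun h => h2 (by rw [h]; exact mem_singleton_self _)
    rw [Pi.add_apply, Pi.single_eq_of_ne h3, add_zero, hf0]
    simp only
    rw [if_pos (mem_erase.2 ⟨h3, hxS⟩)]
    exact hφ1 x (mem_erase.2 ⟨h3, hxS⟩)

/-- adjacency by an edge of `S` -/
def Ad (s t : E → V) (S : Finset E) (x y : V) : Prop :=
  x ≠ y ∧ ∃ e ∈ S, (s e = x ∧ t e = y) ∨ (s e = y ∧ t e = x)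

theorem ad_symm {s t : E → V} {S : Finset E} {x y : V} (h : Ad s t S x y) : Ad s t S y x := by
  obtain ⟨h1, e, he, h2⟩ := h
  exact ⟨h1.symm, e, he, h2.symm⟩

theorem girth {s t : E → V} {S : Finset E} (h : Pool.Agent.TH362.FF.MinR s t S) :
    Pool.Agent.Y335.FL.Girth (Ad s t S) 12 := by
  intro k hk v hv hA
  choose hne ed hS hj using hA
  have hinj : Function.Injective ed :=
    Pool.Agent.Y335.FL.GirthX.ed_inj (src := s) (dst := t) hv hj
  obtain ⟨f, h1, h2, h3⟩ := crit h (hS 0)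
  have hflow : Pool.Agent.TH676.Z.FlowOn s t Sᶜ (univ.image ed) := by
    refine ⟨f, h1, h2, fun e h4 h5 => h3 e h4 ?_⟩
    intro h6
    rw [mem_singleton] at h6
    exact h5 (mem_image.2 ⟨0, mem_univ _, h6.symm⟩)
  have hfin := Pool.Agent.Y335.FL.contract_all V E s t Sᶜ (k + 1) (by omega) v ed hv hinj hj
    (fun i => by simpa using hS i) hflow
  exact h.nz (nz5_of_flowOn hfin)

theorem three {s t : E → V} {S : Finset E} (h : Pool.Agent.TH362.FF.MinR s t S) :
    Pool.Agent.TH676.Z.Three (Ad s t S) := by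
  intro x y hxy
  obtain ⟨hne, e, he, hj⟩ := hxy
  have hd := Pool.Agent.TH362.FF.Girth.deg_card h.noloop x
  have h3 : 3 ≤ (S.filter (fun e => s e = x ∨ t e = x)).card := by
    rw [← hd]
    rcases h.deg_ge x with h0 | h0
    · exfalso
      rw [hd, card_eq_zero] at h0
      have : e ∈ S.filter (fun e => s e = x ∨ t e = x) :=
        mem_filter.2 ⟨he, hj.elim (fun h => Or.inl h.1) (fun h => Or.inr h.2)⟩
      rw [h0] at this
      exact notMem_empty _ this
    · exact h0
  obtain ⟨e1, m1, e2, m2, e3, m3, n12, n13, n23⟩ := two_lt_card.1 h3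
  have key : ∀ g ∈ S.filter (fun e => s e = x ∨ t e = x), ∃ z, x ≠ z ∧
      Pool.Agent.TH362.TF.Ends s t x z g := by
    intro g hg
    obtain ⟨hgS, hgx⟩ := mem_filter.1 hg
    have hl := h.noloop g hgS
    rcases hgx with h1 | h1
    · exact ⟨t g, fun h2 => hl (h1.trans h2), Or.inl ⟨h1, rfl⟩⟩
    · exact ⟨s g, fun h2 => hl (h2.symm.trans h1.symm), Or.inr ⟨rfl, h1⟩⟩
  obtain ⟨z1, hz1, j1⟩ := key e1 m1
  obtain ⟨z2, hz2, j2⟩ := key e2 m2
  obtain ⟨z3, hz3, j3⟩ := key e3 m3
  have mS : ∀ {g}, g ∈ S.filter (fun e => s e = x ∨ t e = x) → g ∈ S :=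
    fun hg => (mem_filter.1 hg).1
  refine ⟨z1, z2, z3, ⟨hz1, e1, mS m1, j1⟩, ⟨hz2, e2, mS m2, j2⟩, ⟨hz3, e3, mS m3, j3⟩, ?_, ?_, ?_⟩
  · rintro rfl
    exact h.nodigon (mS m1) (mS m2) n12 j1 j2
  · rintro rfl
    exact h.nodigon (mS m1) (mS m3) n13 j1 j3
  · rintro rfl
    exact h.nodigon (mS m2) (mS m3) n23 j2 j3

/-- a quotient-minimal counterexample has at least 126 vertices of degree at least three -/
theorem order {s t : E → V} {S : Finset E} (h : Pool.Agent.TH362.FF.MinR s t S) :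
    126 ≤ (univ.filter (fun v => 3 ≤ Pool.Agent.TH362.TF.deg s t S v)).card := by
  classical
  have hne : S.Nonempty := by
    by_contra hc
    rw [not_nonempty_iff_eq_empty] at hc
    subst hc
    exact h.nz ⟨fun _ => 0, fun e he => absurd he (notMem_empty e), fun v => by
      simp [Pool.Agent.TH362.FF.bd]⟩
  obtain ⟨e, he⟩ := hne
  have h1 := Pool.Agent.Y335.FL.moore V (Ad s t S) (fun a b => ad_symm)
    (fun a h => h.1 rfl) (girth h) (three h) ⟨s e, t e, h.noloop e he, e, he, Or.inl ⟨rfl, rfl⟩⟩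
  refine h1.trans (card_le_card ?_)
  intro v hv
  obtain ⟨_, y, hy⟩ := mem_filter.1 hv
  refine mem_filter.2 ⟨mem_univ _, ?_⟩
  rcases h.deg_ge v with h0 | h0
  · exfalso
    rw [Pool.Agent.TH362.FF.Girth.deg_card h.noloop v, card_eq_zero] at h0
    obtain ⟨_, g, hg, hj⟩ := hy
    have : g ∈ S.filter (fun e => s e = v ∨ t e = v) :=
      mem_filter.2 ⟨hg, hj.elim (fun h => Or.inl h.1) (fun h => Or.inr h.2)⟩
    rw [h0] at this
    exact notMem_empty _ this
  · exact h0

/-- **At most 125 vertices of odd degree.** -/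
theorem odd125 (s t : E → V) (S : Finset E) (h1 : Pool.Agent.TH362.TF.N1 s t S)
    (ho : (Pool.Agent.TH362.TF.odd s t S).card ≤ 125) : Pool.Agent.TH362.FF.NZ5 s t S := by
  obtain ⟨n, hn⟩ : ∃ n, S.card = n := ⟨_, rfl⟩
  induction n using Nat.strong_induction_on generalizing s t S with
  | _ n ih =>
    by_contra hnz
    have hmin : Pool.Agent.TH362.FF.MinK 125 s t S := ⟨h1, ho, hnz, fun s' t' S' hlt hn1 hod =>
      ih S'.card (by rw [← hn]; exact hlt) s' t' S' hn1 hod rfl⟩
    have hcub := fun v => hmin.cubic v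
    have h2 := order hmin.toMinR
    have h3 : (univ.filter (fun v => 3 ≤ Pool.Agent.TH362.TF.deg s t S v)).card ≤ 125 := by
      refine (card_le_card fun v hv => ?_).trans ho
      unfold Pool.Agent.TH362.TF.odd
      rw [mem_filter] at hv ⊢
      refine ⟨mem_univ _, ?_⟩
      rcases hcub v with h | h
      · have := hv.2
        omega
      · rw [h]; decide
    omega

/-- **No 107 disjoint vertex sets with boundaries of size three.** -/
theorem fam107 (s t : E → V) (S : Finset E) (h1 : Pool.Agent.TH362.TF.N1 s t S)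
    (h3 : ¬ Pool.Agent.TH362.FF.Fam s t S 107) : Pool.Agent.TH362.FF.NZ5 s t S := by
  obtain ⟨n, hn⟩ : ∃ n, S.card = n := ⟨_, rfl⟩
  induction n using Nat.strong_induction_on generalizing s t S with
  | _ n IH =>
    by_contra hnz
    have hR : Pool.Agent.TH362.FF.MinR s t S := by
      refine ⟨h1, hnz, ?_⟩
      intro f S' hS hf hlt
      exact IH S'.card (by omega) (fun e => f (s e)) (fun e => f (t e)) S'
        (Pool.Agent.TH362.TF.quot_n1 hS hf h1)
        (fun hfam => h3 (Pool.Agent.TH362.FF.fam_quot hS hf hfam)) rfl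
    have k1 := Pool.Agent.TH362.FF.FinN.five_le hR
    have k2 : (univ.filter (fun v => Pool.Agent.TH362.TF.deg s t S v = 3)).card ≤ 106 := by
      by_contra hlt
      exact h3 (Pool.Agent.TH362.FF.fam_deg hR (by omega))
    have k3 := Pool.Agent.TH362.FF.FinN.odd_eq hR
    have k4 := Pool.Agent.TH362.FF.FinN.odd_even s t S
    rw [k3] at k4
    obtain ⟨m, hm⟩ := k4
    exact hnz (odd125 s t S h1 (by rw [k3]; omega))

end Pool.Agent.Q287.FL
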