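import Pool.Agent.Q287.FL.Dom

/-! # Minors which are binary trees -/

set_option autoImplicit false
set_option linter.unusedSectionVars false

namespace Pool.Agent.Q287.FL.Tree

open Finset Pool.Agent.TH676.Z Pool.Agent.Y335.FL Pool.Agent.Y358.IN Pool.Agent.Q287.FL.Dom

section cls
variable {V E : Type} [Fintype V] [DecidableEq V] [Fintype E] [DecidableEq E]

/-- nonempty and connected: every proper part is left by an edge to the rest -/
def Conn (src dst : E → V) (X : Finset V) : Prop := X.Nonempty ∧ ∀ Z ⊆ X, Z.Nonempty → Z ≠ X →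
  ∃ e, (src e ∈ Z ∧ dst e ∈ X \ Z) ∨ (dst e ∈ Z ∧ src e ∈ X \ Z)

/-- an edge joins `X` and `Y` -/
def Joined (src dst : E → V) (X Y : Finset V) : Prop :=
  ∃ e, (src e ∈ X ∧ dst e ∈ Y) ∨ (dst e ∈ X ∧ src e ∈ Y)

/-- a model of the double binary tree with 126 vertices -/
structure Model (src dst : E → V) (B : Bool → List Bool → Finset V) : Prop where
  conn : ∀ s w, w.length ≤ 5 → Conn src dst (B s w)
  disj : ∀ s w s' w', w.length ≤ 5 → w'.length ≤ 5 → (s, w) ≠ (s', w') →
    Disjoint (B s w) (B s' w')
  root : Joined src dst (B false []) (B true [])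
  child : ∀ s w b, w.length ≤ 4 → Joined src dst (B s w) (B s (b :: w))

/-- a model of the star with 64 leaves -/
structure Star (src dst : E → V) (A : Finset V) (L : Fin 64 → Finset V) : Prop where
  connA : Conn src dst A
  connL : ∀ i, Conn src dst (L i)
  disjA : ∀ i, Disjoint A (L i)
  disjL : ∀ i j, i ≠ j → Disjoint (L i) (L j)
  join : ∀ i, Joined src dst A (L i)

theorem Joined.symm {src dst : E → V} {X Y : Finset V} (h : Joined src dst X Y) :
    Joined src dst Y X := by
  obtain ⟨e, h | h⟩ := h
  · exact ⟨e, Or.inr ⟨h.2, h.1⟩⟩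
  · exact ⟨e, Or.inl ⟨h.2, h.1⟩⟩

theorem Joined.mono {src dst : E → V} {X Y X' : Finset V} (h : Joined src dst X Y)
    (hX : X ⊆ X') : Joined src dst X' Y := by
  obtain ⟨e, h | h⟩ := h
  · exact ⟨e, Or.inl ⟨hX h.1, h.2⟩⟩
  · exact ⟨e, Or.inr ⟨hX h.1, h.2⟩⟩

theorem ctr_ne_v {u v : V} (huv : u ≠ v) (x : V) : ctr u v x ≠ v := by
  unfold ctr
  split_ifs with h
  · exact huv
  · exact h

/-- the preimage of a connected set -/
theorem conn_pre (src dst : E → V) (e : E) {X' : Finset V}
    (hvX : dst e ∉ X')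
    (hc : Conn (ctr (src e) (dst e) ∘ src) (ctr (src e) (dst e) ∘ dst) X') :
    Conn src dst (univ.filter (fun w => ctr (src e) (dst e) w ∈ X')) := by
  set u := src e with hu
  set v := dst e with hv
  obtain ⟨hn, hconn⟩ := hc
  set X := univ.filter (fun w => ctr u v w ∈ X') with hX
  have hmX : ∀ w, w ∈ X ↔ ctr u v w ∈ X' := fun w => by simp [hX]
  refine ⟨?_, ?_⟩
  · obtain ⟨x, hx⟩ := hn
    have hxv : x ≠ v := fun h => hvX (h ▸ hx)
    exact ⟨x, (hmX x).2 (by rw [ctr_of_ne hxv]; exact hx)⟩
  intro Z hZ hZn hZX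
  by_cases hsat : ∀ w, w ∈ X → ctr u v w ∈ Z.image (ctr u v) → w ∈ Z
  · have k1 : Z.image (ctr u v) ⊆ X' := by
      intro x hx
      obtain ⟨w, hw, rfl⟩ := mem_image.1 hx
      exact (hmX w).1 (hZ hw)
    have k2 : Z.image (ctr u v) ≠ X' := by
      intro h3
      apply hZX
      refine Subset.antisymm hZ fun w hw => hsat w hw ?_
      rw [h3]
      exact (hmX w).1 hw
    obtain ⟨g, hg⟩ := hconn _ k1 (hZn.image _) k2
    refine ⟨g, hg.imp ?_ ?_⟩
    · rintro ⟨a1, a2⟩
      rw [mem_sdiff] at a2
      refine ⟨hsat _ ((hmX _).2 (k1 a1)) a1, mem_sdiff.2 ⟨(hmX _).2 a2.1, fun a3 => ?_⟩⟩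
      exact a2.2 (mem_image_of_mem _ a3)
    · rintro ⟨a1, a2⟩
      rw [mem_sdiff] at a2
      refine ⟨hsat _ ((hmX _).2 (k1 a1)) a1, mem_sdiff.2 ⟨(hmX _).2 a2.1, fun a3 => ?_⟩⟩
      exact a2.2 (mem_image_of_mem _ a3)
  · push Not at hsat
    obtain ⟨w, hwX, hwi, hwZ⟩ := hsat
    obtain ⟨z, hz, hzw⟩ := mem_image.1 hwi
    have hzw' : z ≠ w := fun h => hwZ (h ▸ hz)
    have key : (z = u ∧ w = v) ∨ (z = v ∧ w = u) := by
      unfold ctr at hzw
      split_ifs at hzw with a1 a2 a2
      · exact absurd (a1.trans a2.symm) hzw'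
      · exact Or.inr ⟨a1, hzw.symm⟩
      · exact Or.inl ⟨hzw, a2⟩
      · exact absurd hzw hzw'
    refine ⟨e, ?_⟩
    rcases key with ⟨a1, a2⟩ | ⟨a1, a2⟩
    · left
      rw [← hu, ← hv, ← a1, ← a2]
      exact ⟨hz, mem_sdiff.2 ⟨hwX, hwZ⟩⟩
    · right
      rw [← hu, ← hv, ← a1, ← a2]
      exact ⟨hz, mem_sdiff.2 ⟨hwX, hwZ⟩⟩

/-- a branch set joined to a disjoint set does not contain the removed vertex -/
theorem not_mem_v (src dst : E → V) (e : E) (hne : src e ≠ dst e) {X Y : Finset V}
    (hc : Conn (ctr (src e) (dst e) ∘ src) (ctr (src e) (dst e) ∘ dst) X)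
    (hj : Joined (ctr (src e) (dst e) ∘ src) (ctr (src e) (dst e) ∘ dst) X Y) :
    dst e ∉ X := by
  intro hv
  have h1 : X = {dst e} := by
    by_contra hne'
    obtain ⟨g, hg | hg⟩ := hc.2 {dst e} (singleton_subset_iff.2 hv) (singleton_nonempty _)
      (fun h => hne' h.symm)
    · exact ctr_ne_v hne _ (mem_singleton.1 hg.1)
    · exact ctr_ne_v hne _ (mem_singleton.1 hg.1)
  obtain ⟨g, hg | hg⟩ := hj
  · rw [h1] at hg
    exact ctr_ne_v hne _ (mem_singleton.1 hg.1)
  · rw [h1] at hg
    exact ctr_ne_v hne _ (mem_singleton.1 hg.1)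

/-- the class -/
def ClT (src dst : E → V) : Prop := ¬ ∃ B, Model src dst B

theorem model_joined {src dst : E → V} {B : Bool → List Bool → Finset V} (h : Model src dst B)
    (s : Bool) (w : List Bool) (hw : w.length ≤ 5) : ∃ Y, Joined src dst (B s w) Y := by
  cases w with
  | nil =>
    cases s
    · exact ⟨_, h.root⟩
    · exact ⟨_, h.root.symm⟩
  | cons b w =>
    have hw' : w.length + 1 ≤ 5 := hw
    exact ⟨_, (h.child s w b (by omega)).symm⟩

theorem ccT : CC (V := V) (E := E) ClT := by
  intro src dst e h hne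
  rintro ⟨B, hB⟩
  apply h
  have hv : ∀ s w, w.length ≤ 5 → dst e ∉ B s w := by
    intro s w hw
    obtain ⟨Y, hY⟩ := model_joined hB s w hw
    exact not_mem_v src dst e hne (hB.conn s w hw) hY
  have hj : ∀ X Y : Finset V,
      Joined (ctr (src e) (dst e) ∘ src) (ctr (src e) (dst e) ∘ dst) X Y →
      Joined src dst (univ.filter (fun w => ctr (src e) (dst e) w ∈ X))
        (univ.filter (fun w => ctr (src e) (dst e) w ∈ Y)) := by
    rintro X Y ⟨g, hg | hg⟩
    · exact ⟨g, Or.inl ⟨by simpa using hg.1, by simpa using hg.2⟩⟩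
    · exact ⟨g, Or.inr ⟨by simpa using hg.1, by simpa using hg.2⟩⟩
  refine ⟨fun s w => univ.filter (fun z => ctr (src e) (dst e) z ∈ B s w), ?_, ?_, ?_, ?_⟩
  · intro s w hw
    exact conn_pre src dst e (hv s w hw) (hB.conn s w hw)
  · intro s w s' w' hw hw' hne'
    rw [disjoint_left]
    intro z h1 h2
    rw [mem_filter] at h1 h2
    exact disjoint_left.1 (hB.disj s w s' w' hw hw' hne') h1.2 h2.2
  · exact hj _ _ hB.root
  · intro s w b hw
    exact hj _ _ (hB.child s w b hw)

end cls

section tree
variable {V : Type} [Fintype V] [DecidableEq V] {G : SimpleGraph V} {ch : V → V → Bool → V}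

/-- the vertex with the word `w`, read from the root `b` -/
def go (ch : V → V → Bool → V) : V → V → List Bool → V
  | _, b, [] => b
  | a, b, i :: w => go ch b (ch a b i) w

theorem go_mem : ∀ (n : ℕ) (a b : V) (w : List Bool), w.length ≤ n →
    go ch a b w ∈ U ch n a b := by
  intro n
  induction n with
  | zero =>
    intro a b w hw
    have h : w = [] := List.length_eq_zero_iff.1 (by omega)
    subst h
    exact root_mem 0 a b
  | succ n ih =>
    intro a b w hw
    cases w with
    | nil => exact root_mem _ a b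
    | cons i w => exact child_sub n a b i (ih b (ch a b i) w (by simpa using hw))

theorem go_adj (hc : Ch G ch) (i : Bool) : ∀ (w : List Bool) (a b : V), G.Adj a b →
    G.Adj (go ch a b w) (go ch a b (w ++ [i])) := by
  intro w
  induction w with
  | nil =>
    intro a b hab
    exact hc.adj a b i hab
  | cons j w ih =>
    intro a b hab
    exact ih b (ch a b j) (hc.adj a b j hab)

theorem go_inj (hG : Good G) (hc : Ch G ch) : ∀ n : ℕ, n ≤ 5 → ∀ (a b : V), G.Adj a b →
    ∀ w w' : List Bool, w.length ≤ n → w'.length ≤ n → go ch a b w = go ch a b w' → w = w' := by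
  intro n
  induction n with
  | zero =>
    intro _ a b _ w w' hw hw' _
    rw [List.length_eq_zero_iff.1 (Nat.le_zero.1 hw), List.length_eq_zero_iff.1 (Nat.le_zero.1 hw')]
  | succ n ih =>
    intro hn a b hab w w' hw hw' h
    cases w with
    | nil =>
      cases w' with
      | nil => rfl
      | cons j w' =>
        exfalso
        have h1 : b ∈ U ch n b (ch a b j) := by
          have h2 := go_mem (ch := ch) n b (ch a b j) w' (by simpa using hw')
          have h3 : b = go ch b (ch a b j) w' := h
          rw [← h3] at h2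
          exact h2
        exact not_root hG hc (by omega) (hc.adj a b j hab) h1
    | cons i w =>
      cases w' with
      | nil =>
        exfalso
        have h1 : b ∈ U ch n b (ch a b i) := by
          have h2 := go_mem (ch := ch) n b (ch a b i) w (by simpa using hw)
          have h3 : go ch b (ch a b i) w = b := h
          rw [h3] at h2
          exact h2
        exact not_root hG hc (by omega) (hc.adj a b i hab) h1
      | cons j w' =>
        by_cases hij : i = j
        · subst hij
          rw [ih (by omega) b (ch a b i) (hc.adj a b i hab) w w' (by simpa using hw)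
            (by simpa using hw') h]
        · exfalso
          exact (far hG hc (n := n) (m := n) (by omega) (hc.adj a b i hab) (hc.adj a b j hab)
            (ch_ne hc hab hij) (go_mem n _ _ w (by simpa using hw))
            (go_mem n _ _ w' (by simpa using hw'))).1 (Eq.symm h)

end tree

section
variable {V E : Type} [Fintype V] [DecidableEq V] [Fintype E] [DecidableEq E]

theorem conn_single (src dst : E → V) (a : V) : Conn src dst {a} := by
  refine ⟨singleton_nonempty a, fun Z hZ hZn hZX => ?_⟩
  exfalso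
  rcases subset_singleton_iff.1 hZ with h | h
  · rw [h] at hZn
    exact not_nonempty_empty hZn
  · exact hZX h

theorem flow_of_ClT (src dst : E → V) (hcl : ClT src dst) (hbr : Br src dst ∅ ∅) :
    FlowOn src dst ∅ ∅ := by
  classical
  refine frame ClT ccT ?_ src dst hcl hbr
  rintro s d h G hGA hG x y hxy
  obtain ⟨ch, hc⟩ := exists_ch hG
  apply h
  have hadj : ∀ a b, G.Adj a b → Joined s d {a} {b} := by
    intro a b hab
    obtain ⟨_, e, he⟩ := (hGA a b).1 hab
    refine ⟨e, ?_⟩
    simp only [mem_singleton]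
    rcases he with he | he
    · exact Or.inl he
    · exact Or.inr ⟨he.2, he.1⟩
  refine ⟨fun s w => bif s then {go ch y x w.reverse} else {go ch x y w.reverse},
    ?_, ?_, ?_, ?_⟩
  · intro s w _
    cases s <;> exact conn_single _ _ _
  · intro s w s' w' hw hw' hne
    rw [disjoint_left]
    intro z h1 h2
    have m1 : ∀ w : List Bool, w.length ≤ 5 → w.reverse.length ≤ 5 := by
      intro w hw
      simpa using hw
    cases s <;> cases s' <;> simp only [cond_true, cond_false, mem_singleton] at h1 h2
    · apply hne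
      have h3 := go_inj hG hc 5 le_rfl x y hxy _ _ (m1 w hw) (m1 w' hw') (h1.symm.trans h2)
      rw [List.reverse_injective h3]
    · exact disj hG hc hxy (h1 ▸ go_mem 5 x y _ (m1 w hw)) (h2 ▸ go_mem 5 y x _ (m1 w' hw'))
    · exact disj hG hc hxy (h2 ▸ go_mem 5 x y _ (m1 w' hw')) (h1 ▸ go_mem 5 y x _ (m1 w hw))
    · apply hne
      have h3 := go_inj hG hc 5 le_rfl y x hxy.symm _ _ (m1 w hw) (m1 w' hw') (h1.symm.trans h2)
      rw [List.reverse_injective h3]
  · exact hadj _ _ hxy.symm
  · intro s w b _
    cases s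
    · simp only [cond_false, List.reverse_cons]
      exact hadj _ _ (go_adj hc b _ x y hxy)
    · simp only [cond_true, List.reverse_cons]
      exact hadj _ _ (go_adj hc b _ y x hxy.symm)

/-- the inner branch sets form a connected set -/
theorem star_of_model {src dst : E → V} {B : Bool → List Bool → Finset V}
    (h : Model src dst B) : ∃ A L, Star src dst A L := by
  classical
  set N : Finset (Bool × List Bool) :=
    (univ : Finset (Bool × (Σ n : Fin 5, Fin n → Bool))).image (fun p => (p.1, List.ofFn p.2.2))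
    with hN
  have hmN : ∀ s w, (s, w) ∈ N ↔ w.length ≤ 4 := by
    intro s w
    rw [hN, mem_image]
    constructor
    · rintro ⟨p, _, hp⟩
      have h1 : List.ofFn p.2.2 = w := congrArg Prod.snd hp
      rw [← h1, List.length_ofFn]
      have := p.2.1.2
      omega
    · intro hw
      refine ⟨(s, ⟨⟨w.length, by omega⟩, fun i => w.get i⟩), mem_univ _, ?_⟩
      simp
  set A := N.biUnion (fun p => B p.1 p.2) with hA
  have hsub : ∀ s w, w.length ≤ 4 → B s w ⊆ A := by
    intro s w hw z hz
    exact mem_biUnion.2 ⟨(s, w), (hmN s w).2 hw, hz⟩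
  let φ : (Bool × (Fin 5 → Bool)) ≃ Fin 64 := Fintype.equivFinOfCardEq (by simp)
  refine ⟨A, fun i => B (φ.symm i).1 (List.ofFn (φ.symm i).2), ⟨?_, ?_⟩, ?_, ?_, ?_, ?_⟩
  · obtain ⟨z, hz⟩ := (h.conn false [] (by simp)).1
    exact ⟨z, hsub false [] (by simp) hz⟩
  · intro Z hZ hZn hZX
    by_cases hsp : ∃ s w, w.length ≤ 4 ∧ (Z ∩ B s w).Nonempty ∧ Z ∩ B s w ≠ B s w
    · obtain ⟨s, w, hw, h1, h2⟩ := hsp
      obtain ⟨e, he⟩ := (h.conn s w (by omega)).2 (Z ∩ B s w) inter_subset_right h1 h2
      have key : ∀ z, z ∈ B s w \ (Z ∩ B s w) → z ∈ A \ Z := by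
        intro z hz
        rw [mem_sdiff, mem_inter] at hz
        exact mem_sdiff.2 ⟨hsub s w hw hz.1, fun h3 => hz.2 ⟨h3, hz.1⟩⟩
      rcases he with he | he
      · exact ⟨e, Or.inl ⟨(mem_inter.1 he.1).1, key _ he.2⟩⟩
      · exact ⟨e, Or.inr ⟨(mem_inter.1 he.1).1, key _ he.2⟩⟩
    · push Not at hsp
      -- every inner branch set is inside or outside
      have hio : ∀ s w, w.length ≤ 4 → B s w ⊆ Z ∨ Disjoint (B s w) Z := by
        intro s w hw
        by_cases h1 : (Z ∩ B s w).Nonempty
        · left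
          rw [← hsp s w hw h1]
          exact inter_subset_left
        · right
          rw [disjoint_left]
          intro z hz hz'
          exact h1 ⟨z, mem_inter.2 ⟨hz', hz⟩⟩
      by_contra hcon
      push Not at hcon
      -- adjacent sets agree
      have hag : ∀ s w s' w', w.length ≤ 4 → w'.length ≤ 4 → Joined src dst (B s w) (B s' w') →
          B s w ⊆ Z → B s' w' ⊆ Z := by
        intro s w s' w' hw hw' hj hin
        rcases hio s' w' hw' with h1 | h1
        · exact h1
        · exfalso
          obtain ⟨e, he | he⟩ := hj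
          · exact (hcon e).1 (hin he.1)
              (mem_sdiff.2 ⟨hsub s' w' hw' he.2, disjoint_left.1 h1 he.2⟩)
          · exact (hcon e).2 (hin he.1)
              (mem_sdiff.2 ⟨hsub s' w' hw' he.2, disjoint_left.1 h1 he.2⟩)
      have up : ∀ s w, w.length ≤ 4 → B s w ⊆ Z → B s [] ⊆ Z := by
        intro s w
        induction w with
        | nil => exact fun _ h1 => h1
        | cons b w ih =>
          intro hw h1
          have hw' : w.length + 1 ≤ 4 := hw
          exact ih (by omega) (hag s (b :: w) s w hw (by omega) (h.child s w b (by omega)).symm h1)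
      have dn : ∀ s w, w.length ≤ 4 → B s [] ⊆ Z → B s w ⊆ Z := by
        intro s w
        induction w with
        | nil => exact fun _ h1 => h1
        | cons b w ih =>
          intro hw h1
          have hw' : w.length + 1 ≤ 4 := hw
          exact hag s w s (b :: w) (by omega) hw (h.child s w b (by omega)) (ih (by omega) h1)
      have hall : ∀ s s', B s [] ⊆ Z → B s' [] ⊆ Z := by
        intro s s' h1
        cases s <;> cases s'
        · exact h1
        · exact hag _ _ _ _ (by simp) (by simp) h.root h1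
        · exact hag _ _ _ _ (by simp) (by simp) h.root.symm h1
        · exact h1
      obtain ⟨z, hz⟩ := hZn
      obtain ⟨⟨s, w⟩, hsw, hzB⟩ := mem_biUnion.1 (hZ hz)
      have hw := (hmN s w).1 hsw
      have hin : B s w ⊆ Z := by
        rcases hio s w hw with h1 | h1
        · exact h1
        · exact absurd hz (disjoint_left.1 h1 hzB)
      apply hZX
      refine Subset.antisymm hZ ?_
      intro a ha
      obtain ⟨⟨s', w'⟩, hsw', haB⟩ := mem_biUnion.1 ha
      exact dn s' w' ((hmN s' w').1 hsw') (hall s s' (up s w hw hin)) haB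
  · intro i
    exact h.conn _ _ (by simp)
  · intro i
    rw [disjoint_left]
    intro z hz hz'
    obtain ⟨⟨s, w⟩, hsw, hzB⟩ := mem_biUnion.1 hz
    have hw := (hmN s w).1 hsw
    refine disjoint_left.1 (h.disj s w _ _ (by omega) (by simp) ?_) hzB hz'
    intro heq
    have h1 : w = List.ofFn (φ.symm i).2 := congrArg Prod.snd heq
    rw [h1, List.length_ofFn] at hw
    omega
  · intro i j hij
    refine h.disj _ _ _ _ (by simp) (by simp) fun heq => hij ?_
    have h1 := congrArg Prod.fst heq
    have h2 : List.ofFn (φ.symm i).2 = List.ofFn (φ.symm j).2 := congrArg Prod.snd heq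
    have h3 := List.ofFn_injective h2
    exact φ.symm.injective (Prod.ext h1 h3)
  · intro i
    obtain ⟨b, w, hw⟩ : ∃ b w, List.ofFn (φ.symm i).2 = b :: w :=
      ⟨_, _, List.ofFn_succ⟩
    have hl : (List.ofFn (φ.symm i).2).length = 5 := List.length_ofFn
    change Joined src dst A (B (φ.symm i).1 (List.ofFn (φ.symm i).2))
    rw [hw] at hl ⊢
    have hl' : w.length + 1 = 5 := hl
    exact (h.child _ w b (by omega)).mono (hsub _ w (by omega))

end

end Pool.Agent.Q287.FL.Tree
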